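import Mathlib

set_option autoImplicit false

/-!
# The Cantor cube whose weight is a strong limit cardinal of countable cofinality

It is D-separable, and it has no sigma-disjoint pi-base.
-/

namespace Pool.Agent.H618Z.BethCube

open Cardinal Set Order

theorem mk_closure_le {Z : Type} [TopologicalSpace Z] [T2Space Z] (A : Set Z) :
    #(closure A) ≤ (2 : Cardinal.{0}) ^ ((2 : Cardinal.{0}) ^ #A) := by
  rw [← mk_set, ← mk_set]
  refine mk_le_of_injective
    (f := fun x : closure A => {B : Set A | x.1 ∈ closure (Subtype.val '' B)}) ?_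
  intro x y hxy
  by_contra hne
  have hne' : x.1 ≠ y.1 := fun h => hne (Subtype.ext h)
  obtain ⟨U, V, hU, hV, hxU, hyV, hUV⟩ := t2_separation hne'
  have himg : Subtype.val '' (Subtype.val ⁻¹' U : Set A) = U ∩ A := by
    rw [Subtype.image_preimage_coe, inter_comm]
  have h1 : (Subtype.val ⁻¹' U : Set A) ∈ {B : Set A | x.1 ∈ closure (Subtype.val '' B)} := by
    show x.1 ∈ closure (Subtype.val '' (Subtype.val ⁻¹' U : Set A))
    rw [himg]
    exact hU.inter_closure ⟨hxU, x.2⟩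
  have h2 : (Subtype.val ⁻¹' U : Set A) ∈ {B : Set A | y.1 ∈ closure (Subtype.val '' B)} := by
    have := hxy
    simp only at this
    rw [← this]
    exact h1
  have h3 : y.1 ∈ closure (U ∩ A) := by
    rw [← himg]
    exact h2
  obtain ⟨z, hzV, hzU, _⟩ := mem_closure_iff.mp h3 V hV hyV
  exact (Set.disjoint_left.mp hUV hzU) hzV

variable {I : Type}

/-- a set of coordinates separating the points of `Y` -/
theorem exists_sep (Y : Set (I → ZMod 2)) (hY : ℵ₀ ≤ #Y) :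
    ∃ Ξ : Set I, #Ξ ≤ #Y ∧ ∀ x ∈ Y, ∀ y ∈ Y, (∀ i ∈ Ξ, x i = y i) → x = y := by
  have h : ∀ p : {p : Y × Y // p.1 ≠ p.2}, ∃ i, p.1.1.1 i ≠ p.1.2.1 i := by
    intro p
    by_contra h
    push Not at h
    exact p.2 (Subtype.ext (funext h))
  choose f hf using h
  refine ⟨range f, ?_, ?_⟩
  · refine mk_range_le.trans ((mk_subtype_le _).trans ?_)
    simp only [mk_prod, lift_id]
    rw [mul_eq_self hY]
  · intro x hx y hy hxy
    by_contra hne
    exact hf ⟨(⟨x, hx⟩, ⟨y, hy⟩), fun h => hne (congrArg Subtype.val h)⟩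
      (hxy _ (mem_range_self _))

theorem step (κ l : Cardinal.{0}) (hκ : ∀ x < κ, 2 ^ x < κ) (hl : ℵ₀ ≤ l) (hlκ : l < κ)
    (D W : Set (I → ZMod 2)) (Ξ : Set I) (hD : κ ≤ #D) (hW : #W ≤ l) (hΞ : #Ξ ≤ l) :
    ∃ Y : Set (I → ZMod 2), Y ⊆ D ∧ #Y = l ∧ Disjoint Y (closure W) ∧
      ∀ x ∈ Y, ∀ y ∈ Y, ∀ i ∈ Ξ, x i = y i := by
  have hκ0 : ℵ₀ ≤ κ := hl.trans hlκ.le
  have h1 : #(closure W) < κ :=
    (mk_closure_le W).trans_lt (hκ _ (hκ _ (hW.trans_lt hlκ)))
  have h2 : κ ≤ #(D \ closure W : Set _) := by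
    by_contra h
    push Not at h
    have := add_lt_of_lt hκ0 h h1
    exact absurd (hD.trans (le_mk_sdiff_add_mk D (closure W))) (not_le.mpr this)
  have h3 : succ (2 ^ l) ≤ κ := succ_le_of_lt (hκ l hlκ)
  have h4 : ℵ₀ ≤ 2 ^ l := hl.trans (cantor l).le
  obtain ⟨a, t, ht, h5, h6⟩ := infinite_pigeonhole_set (s := D \ closure W)
    (fun x => (fun i : Ξ => x.1 i.1)) (succ (2 ^ l)) (h3.trans h2) (h4.trans (le_succ _))
    (by
      rw [(isRegular_succ h4).cof_ord, lt_succ_iff]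
      simp only [mk_pi, prod_const, mk_fintype, ZMod.card, lift_id, Nat.cast_ofNat]
      exact power_le_power_left two_ne_zero hΞ)
  obtain ⟨Y, hYt, hY⟩ := le_mk_iff_exists_subset.mp (((cantor l).le.trans (le_succ _)).trans h5)
  refine ⟨Y, fun x hx => (ht (hYt hx)).1, hY, ?_, ?_⟩
  · rw [Set.disjoint_left]
    exact fun x hx => (ht (hYt hx)).2
  · intro x hx y hy i hi
    exact (congrFun (h6 (hYt hx)) ⟨i, hi⟩).trans (congrFun (h6 (hYt hy)) ⟨i, hi⟩).symm

/-- Fewer than `κ` sets of size at least `κ` have a discrete transversal. -/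
theorem transversal (κ : Cardinal.{0}) (hκ : ∀ x < κ, 2 ^ x < κ) (hκ0 : ℵ₀ < κ)
    (S : Type) (hS : #S < κ) (D : S → Set (I → ZMod 2)) (hD : ∀ s, κ ≤ #(D s)) :
    ∃ x : S → (I → ZMod 2), (∀ s, x s ∈ D s) ∧ DiscreteTopology (range x) := by
  classical
  set μ : Cardinal.{0} := max #S ℵ₀ with hμ
  have hμκ : μ < κ := max_lt hS hκ0
  set l : Cardinal.{0} := (2 : Cardinal.{0}) ^ ((2 : Cardinal.{0}) ^ ((2 : Cardinal.{0}) ^ μ)) with hldef
  have hlκ : l < κ := hκ _ (hκ _ (hκ _ hμκ))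
  have hμl : μ ≤ l := (cantor _).le.trans ((cantor _).le.trans (cantor _).le)
  have hl0 : ℵ₀ ≤ l := (le_max_right _ _).trans hμl
  have hSl : #S ≤ l := (le_max_left _ _).trans hμl
  -- separating coordinates
  have hsep : ∀ Y : {Y : Set (I → ZMod 2) // #Y = l}, ∃ Ξ : Set I, #Ξ ≤ l ∧
      ∀ x ∈ Y.1, ∀ y ∈ Y.1, (∀ i ∈ Ξ, x i = y i) → x = y := by
    intro Y
    have := exists_sep Y.1 (by rw [Y.2]; exact hl0)
    rwa [Y.2] at this
  choose sep hsep1 hsep2 using hsep
  obtain ⟨_, hwf⟩ := exists_wellFoundedLT S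
  have hstep : ∀ (s : S) (f : {r : S // r < s} → {Y : Set (I → ZMod 2) // #Y = l}),
      ∃ Y : {Y : Set (I → ZMod 2) // #Y = l}, Y.1 ⊆ D s ∧ Disjoint Y.1 (closure (⋃ r, (f r).1)) ∧
        ∀ x ∈ Y.1, ∀ y ∈ Y.1, ∀ i ∈ ⋃ r, sep (f r), x i = y i := by
    intro s f
    have hc : #{r : S // r < s} ≤ l := (mk_subtype_le _).trans hSl
    obtain ⟨Y, h1, h2, h3, h4⟩ := step κ l hκ hl0 hlκ (D s) (⋃ r, (f r).1) (⋃ r, sep (f r)) (hD s)
      (by
        refine (mk_iUnion_le _).trans ?_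
        refine (mul_le_mul' hc (ciSup_le' fun r => (f r).2.le)).trans ?_
        rw [mul_eq_self hl0])
      (by
        refine (mk_iUnion_le _).trans ?_
        refine (mul_le_mul' hc (ciSup_le' fun r => hsep1 (f r))).trans ?_
        rw [mul_eq_self hl0])
    exact ⟨⟨Y, h2⟩, h1, h3, h4⟩
  choose F hF using hstep
  let Y : S → {Y : Set (I → ZMod 2) // #Y = l} :=
    (wellFounded_lt (α := S)).fix (fun s g => F s (fun r => g r.1 r.2))
  have hY : ∀ s, Y s = F s (fun r => Y r.1) := fun s => WellFounded.fix_eq _ _ s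
  have hY1 : ∀ s, (Y s).1 ⊆ D s := fun s => by rw [hY]; exact (hF _ _).1
  have hY2 : ∀ s, Disjoint (Y s).1 (closure (⋃ r : {r : S // r < s}, (Y r.1).1)) := fun s => by
    conv_lhs => rw [hY]
    exact (hF _ _).2.1
  have hY3 : ∀ s r, r < s → ∀ x ∈ (Y s).1, ∀ y ∈ (Y s).1, ∀ i ∈ sep (Y r), x i = y i := by
    intro s r hrs x hx y hy i hi
    rw [hY] at hx hy
    exact (hF _ _).2.2 x hx y hy i (mem_iUnion.mpr ⟨⟨r, hrs⟩, hi⟩)
  have hne : ∀ s, (Y s).1.Nonempty := by
    intro s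
    rw [← nonempty_coe_sort, ← mk_ne_zero_iff, (Y s).2]
    exact (aleph0_pos.trans_le hl0).ne'
  choose y hy using hne
  let ρ : ∀ s : S, (I → ZMod 2) → (sep (Y s) → ZMod 2) := fun s x i => x i.1
  have hρ : ∀ s, Continuous (ρ s) := fun s => continuous_pi fun i => continuous_apply i.1
  have hx : ∀ s, ∃ x ∈ (Y s).1, ρ s x ∉ closure (range (fun t => ρ s (y t))) := by
    intro s
    by_contra h
    push Not at h
    have h1 : #(Y s).1 ≤ #(closure (range (fun t => ρ s (y t)))) := by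
      refine mk_le_of_injective (f := fun x : (Y s).1 => ⟨ρ s x.1, h x.1 x.2⟩) ?_
      intro a b hab
      refine Subtype.ext (hsep2 (Y s) _ a.2 _ b.2 fun i hi => ?_)
      exact congrFun (congrArg Subtype.val hab) ⟨i, hi⟩
    have h2 := mk_closure_le (range (fun t => ρ s (y t)))
    have h3 : #(range (fun t => ρ s (y t))) ≤ μ := mk_range_le.trans (le_max_left _ _)
    have h4 : (2 : Cardinal.{0}) ^ ((2 : Cardinal.{0}) ^ #(range (fun t => ρ s (y t)))) ≤
        (2 : Cardinal.{0}) ^ ((2 : Cardinal.{0}) ^ μ) :=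
      power_le_power_left two_ne_zero (power_le_power_left two_ne_zero h3)
    rw [(Y s).2] at h1
    exact absurd (h1.trans (h2.trans h4)) (not_le.mpr (cantor _))
  choose x hx1 hx2 using hx
  refine ⟨x, fun s => hY1 s (hx1 s), ?_⟩
  rw [← isDiscrete_iff_discreteTopology, isDiscrete_iff_forall_mem_exists_isOpen]
  rintro _ ⟨s, rfl⟩
  refine ⟨(ρ s ⁻¹' (closure (range (fun t => ρ s (y t))))ᶜ) ∩
    (closure (⋃ r : {r : S // r < s}, (Y r.1).1))ᶜ, ?_, ?_⟩
  · exact (isClosed_closure.isOpen_compl.preimage (hρ s)).inter isClosed_closure.isOpen_compl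
  · ext z
    constructor
    · rintro ⟨⟨h1, h2⟩, t, rfl⟩
      rcases lt_trichotomy t s with h | h | h
      · exact absurd (subset_closure (mem_iUnion.mpr ⟨⟨t, h⟩, hx1 t⟩)) h2
      · rw [h]; rfl
      · exfalso
        apply h1
        refine subset_closure ⟨t, ?_⟩
        funext i
        exact hY3 t s h _ (hy t) _ (hx1 t) i.1 i.2
    · rintro rfl
      exact ⟨⟨hx2 s, Set.disjoint_left.mp (hY2 s) (hx1 s)⟩, mem_range_self s⟩

/-- the cylinder with support `F` around `b` -/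
def cyl (F : Finset I) (b : I → ZMod 2) : Set (I → ZMod 2) := {x | ∀ i ∈ F, x i = b i}

theorem isOpen_cyl (F : Finset I) (b : I → ZMod 2) : IsOpen (cyl F b) := by
  have : cyl F b = ⋂ i ∈ F, (fun x : I → ZMod 2 => x i) ⁻¹' {b i} := by
    ext x
    simp [cyl]
  rw [this]
  exact isOpen_biInter_finset fun i _ => (isOpen_discrete _).preimage (continuous_apply i)

theorem exists_cyl {U : Set (I → ZMod 2)} (hU : IsOpen U) {b : I → ZMod 2} (hb : b ∈ U) :
    ∃ F : Finset I, cyl F b ⊆ U := by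
  obtain ⟨F, u, h1, h2⟩ := isOpen_pi_iff.mp hU b hb
  refine ⟨F, fun x hx => h2 fun i hi => ?_⟩
  rw [hx i hi]
  exact (h1 i hi).2

theorem mk_cyl (hI : ℵ₀ ≤ #I) (F : Finset I) (b : I → ZMod 2) : #I ≤ #(cyl F b) := by
  classical
  have : Infinite I := infinite_iff.mpr hI
  have h1 : #I ≤ #((F : Set I)ᶜ : Set I) := by
    rw [mk_compl_of_infinite]
    exact (finset_card_lt_aleph0 F).trans_le hI
  refine h1.trans (mk_le_of_injective
    (f := fun i : ((F : Set I)ᶜ : Set I) => ⟨Function.update b i.1 (b i.1 + 1), ?_⟩) ?_)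
  · intro j hj
    rw [Function.update_of_ne]
    rintro rfl
    exact i.2 hj
  · intro i j hij
    by_contra hne
    have hne' : i.1 ≠ j.1 := fun h => hne (Subtype.ext h)
    have := congrFun (congrArg Subtype.val hij) i.1
    simp only [Function.update_self, Function.update_of_ne hne'] at this
    simp at this

theorem mk_dense_inter (hκ : ∀ x < #I, 2 ^ x < #I) (hI : ℵ₀ ≤ #I) {D : Set (I → ZMod 2)}
    (hD : Dense D) (F : Finset I) (b : I → ZMod 2) : #I ≤ #(cyl F b ∩ D : Set _) := by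
  by_contra h
  push Not at h
  have h1 : cyl F b ⊆ closure (cyl F b ∩ D) := hD.open_subset_closure_inter (isOpen_cyl F b)
  have h2 := (mk_cyl hI F b).trans ((mk_le_mk_of_subset h1).trans (mk_closure_le _))
  exact absurd h2 (not_le.mpr (hκ _ (hκ _ h)))

/-- The cube is D-separable. -/
theorem dSep (hκ : ∀ x < #I, 2 ^ x < #I) (hI : ℵ₀ < #I) (rk : I → ℕ)
    (hrk : ∀ n, #{i | rk i ≤ n} < #I) (D : ℕ → Set (I → ZMod 2)) (hD : ∀ n, Dense (D n)) :
    ∃ E : ℕ → Set (I → ZMod 2), (∀ n, E n ⊆ D n ∧ DiscreteTopology (E n)) ∧ Dense (⋃ n, E n) := by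
  classical
  have h : ∀ n, ∃ x : Finset {i | rk i ≤ n} × Finset {i | rk i ≤ n} → (I → ZMod 2),
      (∀ s, x s ∈ cyl (s.1.image Subtype.val)
        (fun i => if i ∈ s.2.image Subtype.val then 1 else 0) ∩ D n) ∧
      DiscreteTopology (range x) := by
    intro n
    refine transversal (#I) hκ hI _ ?_ _ (fun s => mk_dense_inter hκ hI.le (hD n) _ _)
    have h1 : #(Finset {i | rk i ≤ n}) < #I := by
      refine lt_of_le_of_lt ?_ (hκ _ (hrk n))
      rw [← mk_set]
      exact mk_le_of_injective Finset.coe_injective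
    simp only [mk_prod, lift_id]
    exact mul_lt_of_lt hI.le h1 h1
  choose x hx1 hx2 using h
  refine ⟨fun n => range (x n), fun n => ⟨?_, hx2 n⟩, ?_⟩
  · rintro _ ⟨s, rfl⟩
    exact (hx1 n s).2
  · rw [dense_iff_inter_open]
    rintro U hU ⟨b, hb⟩
    obtain ⟨F, hF⟩ := exists_cyl hU hb
    set n := F.sup rk with hn
    have hle : ∀ i ∈ F, rk i ≤ n := fun i hi => Finset.le_sup hi
    let s : Finset {i | rk i ≤ n} × Finset {i | rk i ≤ n} :=
      (F.subtype _, (F.filter (fun i => b i = 1)).subtype _)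
    refine ⟨x n s, hF fun i hi => ?_, mem_iUnion.mpr ⟨n, mem_range_self s⟩⟩
    have h1 := (hx1 n s).1 i (Finset.mem_image.mpr ⟨⟨i, hle i hi⟩, by simpa [s] using hi, rfl⟩)
    rw [h1]
    beta_reduce
    by_cases hb1 : b i = 1
    · rw [if_pos, hb1]
      exact Finset.mem_image.mpr ⟨⟨i, hle i hi⟩, by simpa [s] using ⟨hi, hb1⟩, rfl⟩
    · rw [if_neg]
      · revert hb1
        generalize b i = c
        revert c
        decide
      · intro h
        obtain ⟨j, hj, rfl⟩ := Finset.mem_image.mp h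
        simp only [s, Finset.mem_subtype, Finset.mem_filter] at hj
        exact hb1 hj.2

theorem ccc {G : Type} [AddCommGroup G] [TopologicalSpace G] [IsTopologicalAddGroup G]
    [CompactSpace G] [T2Space G] (C : Set (Set G)) (hC : C.PairwiseDisjoint id)
    (hO : ∀ U ∈ C, IsOpen U ∧ U.Nonempty) : C.Countable := by
  let : MeasurableSpace G := borel G
  have : BorelSpace G := ⟨rfl⟩
  have h := MeasureTheory.Measure.countable_meas_pos_of_disjoint_iUnion
    (μ := (MeasureTheory.Measure.addHaar : MeasureTheory.Measure G))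
    (As := fun U : C => U.1) (fun U => (hO U.1 U.2).1.measurableSet)
    (fun U V hUV => hC U.2 V.2 (fun h => hUV (Subtype.ext h)))
  have h2 : {U : C | 0 < (MeasureTheory.Measure.addHaar : MeasureTheory.Measure G) U.1} =
      Set.univ :=
    eq_univ_of_forall fun U => (hO U.1 U.2).1.measure_pos _ (hO U.1 U.2).2
  rw [h2, countable_univ_iff] at h
  exact h

/-- The cube has no sigma-disjoint pi-base. -/
theorem no_base (hκ : ∀ x < #I, 2 ^ x < #I) (hI : ℵ₀ < #I) (ι : Type) [Countable ι]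
    (C : ι → Set (Set (I → ZMod 2))) (h1 : ∀ i, (C i).PairwiseDisjoint id)
    (h2 : ∀ i, ∀ U ∈ C i, IsOpen U ∧ U.Nonempty)
    (h3 : ∀ V : Set (I → ZMod 2), IsOpen V → V.Nonempty → ∃ i, ∃ U ∈ C i, U ⊆ V) : False := by
  have hc : (⋃ i, C i).Countable := countable_iUnion fun i => ccc (C i) (h1 i) (h2 i)
  have hne : ∀ U : (⋃ i, C i), U.1.Nonempty := by
    rintro ⟨U, hU⟩
    obtain ⟨i, hi⟩ := mem_iUnion.mp hU
    exact (h2 i U hi).2
  choose p hp using hne
  have hd : Dense (range p) := by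
    rw [dense_iff_inter_open]
    intro V hV hVne
    obtain ⟨i, U, hU, hUV⟩ := h3 V hV hVne
    exact ⟨p ⟨U, mem_iUnion.mpr ⟨i, hU⟩⟩, hUV (hp ⟨U, mem_iUnion.mpr ⟨i, hU⟩⟩), mem_range_self _⟩
  have := hc.to_subtype
  have h4 : #(range p) ≤ ℵ₀ := mk_range_le.trans mk_le_aleph0
  have h5 := (mk_dense_inter hκ hI.le hd ∅ 0).trans
    ((mk_le_mk_of_subset inter_subset_right).trans h4)
  exact absurd h5 (not_le.mpr hI)

/-- iterated power sets of the naturals -/
def T : ℕ → Type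
  | 0 => ℕ
  | n + 1 => Set (T n)

theorem mk_T_succ (n : ℕ) : #(T (n + 1)) = 2 ^ #(T n) := mk_set

theorem mk_T_lt (n : ℕ) : #(T n) < #(T (n + 1)) := by
  rw [mk_T_succ]
  exact cantor _

theorem mk_T_mono : StrictMono (fun n => #(T n)) := strictMono_nat_of_lt_succ mk_T_lt

theorem aleph0_le_T (n : ℕ) : ℵ₀ ≤ #(T n) :=
  (show ℵ₀ ≤ #(T 0) from (mk_nat).ge).trans (mk_T_mono.monotone (Nat.zero_le n))

theorem T_lt (n : ℕ) : #(T n) < #(Σ n, T n) :=
  (mk_T_lt n).trans_le (mk_le_of_injective (f := fun x => (⟨n + 1, x⟩ : Σ n, T n))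
    sigma_mk_injective)

theorem exists_index : ∃ (I : Type) (rk : I → ℕ), (∀ x < #I, 2 ^ x < #I) ∧ ℵ₀ < #I ∧
    ∀ n, #{i | rk i ≤ n} < #I := by
  refine ⟨Σ n, T n, fun i => i.1, ?_, (aleph0_le_T 0).trans_lt (T_lt 0), ?_⟩
  · intro x hx
    have : ∃ n, x ≤ #(T n) := by
      by_contra h
      push Not at h
      have h0 : ℵ₀ ≤ x := (aleph0_le_T 0).trans (h 0).le
      have h1 : #(Σ n, T n) ≤ x := by
        rw [mk_sigma]
        refine (sum_le_sum _ (fun _ => x) fun n => (h n).le).trans ?_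
        rw [sum_const', mk_nat, aleph0_mul_eq h0]
      exact absurd hx (not_lt.mpr h1)
    obtain ⟨n, hn⟩ := this
    refine lt_of_le_of_lt ?_ (T_lt (n + 1))
    rw [mk_T_succ]
    exact power_le_power_left two_ne_zero hn
  · intro n
    refine lt_of_le_of_lt ?_ (T_lt n)
    have h1 : {i : Σ n, T n | i.1 ≤ n} ⊆ ⋃ k : Fin (n + 1), range (Sigma.mk (β := T) k.1) := by
      rintro ⟨k, x⟩ hk
      exact mem_iUnion.mpr ⟨⟨k, Nat.lt_succ_of_le hk⟩, x, rfl⟩
    refine (mk_le_mk_of_subset h1).trans ((mk_iUnion_le _).trans ?_)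
    have h2 : (⨆ k : Fin (n + 1), #(range (Sigma.mk (β := T) k.1))) ≤ #(T n) :=
      ciSup_le' fun k => mk_range_le.trans (mk_T_mono.monotone (Nat.le_of_lt_succ k.2))
    refine (mul_le_mul' (mk_le_aleph0.trans (aleph0_le_T n)) h2).trans ?_
    rw [mul_eq_self (aleph0_le_T n)]

end Pool.Agent.H618Z.BethCube
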