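import Mathlib

set_option autoImplicit false

namespace Pool.Agent.H618Z.Latin

/-- Two triples of `T` that agree off one coordinate are equal. -/
def PL {Z : Type} (T : Set (Fin 3 → Z)) : Prop :=
  ∀ t ∈ T, ∀ u ∈ T, ∀ i, (∀ j, j ≠ i → t j = u j) → t = u

/-- Any two coordinates taken in `D` are completed to a triple of `T`. -/
def Tot {Z : Type} (D : Fin 3 → Set Z) (T : Set (Fin 3 → Z)) : Prop :=
  ∀ (i : Fin 3) (v : Fin 3 → Z), (∀ j, j ≠ i → v j ∈ D j) → ∃ t ∈ T, ∀ j, j ≠ i → t j = v j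

theorem third (j k : Fin 3) (h : j ≠ k) : ∃ i : Fin 3, ∀ l, l ≠ i → l = j ∨ l = k := by
  revert j k; decide

theorem PL.eq2 {Z : Type} {T : Set (Fin 3 → Z)} (h : PL T) {t u : Fin 3 → Z} (ht : t ∈ T)
    (hu : u ∈ T) {j k : Fin 3} (hjk : j ≠ k) (h1 : t j = u j) (h2 : t k = u k) : t = u := by
  obtain ⟨i, hi⟩ := third j k hjk
  refine h t ht u hu i fun l hl => ?_
  rcases hi l hl with rfl | rfl <;> assumption

theorem two_others (i : Fin 3) : ∃ j k : Fin 3, j ≠ k ∧ j ≠ i ∧ k ≠ i := by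
  revert i; decide

section Embed

variable {Z : Type} [DecidableEq Z]

def ee (j : Fin 3) (z : Z) : Fin 3 × Z → ZMod 2 := fun p => if p = (j, z) then 1 else 0

def ww (t : Fin 3 → Z) : Fin 3 × Z → ZMod 2 := ∑ j, ee j (t j)

theorem ww_apply (t : Fin 3 → Z) (k : Fin 3) (z : Z) :
    ww t (k, z) = if z = t k then 1 else 0 := by
  unfold ww
  rw [Finset.sum_apply, Finset.sum_eq_single k]
  · simp [ee]
  · intro b _ hb
    simp [ee, hb.symm]
  · simp

theorem ee_inj (j : Fin 3) : Function.Injective (ee (Z := Z) j) := by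
  intro z z' h
  have := congrFun h (j, z)
  by_contra hne
  simp [ee, hne] at this

def KK (t : Fin 3 → Z) (j : Fin 3) (x : Fin 3 × Z → ZMod 2) : Prop :=
  ∃ ε : ZMod 2, x = ee j (t j) + ε • ww t

theorem KK_key {T : Set (Fin 3 → Z)} (hT : PL T) {t u : Fin 3 → Z} (ht : t ∈ T) (hu : u ∈ T)
    {j : Fin 3} {x : Fin 3 × Z → ZMod 2} (h1 : KK t j x) (h2 : KK u j x) :
    t j = u j ∨ t = u := by
  obtain ⟨ε, h1⟩ := h1
  obtain ⟨ε', h2⟩ := h2
  have h := h1.symm.trans h2
  by_cases hε : ε = 0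
  · by_cases hε' : ε' = 0
    · left
      subst hε hε'
      simp only [zero_smul, add_zero] at h
      exact ee_inj j h
    · right
      refine hT t ht u hu j fun k hk => ?_
      have := congrFun h (k, u k)
      subst hε
      simp [ee, hk, ww_apply] at this
      exact absurd this.symm hε'
  · right
    refine hT t ht u hu j fun k hk => ?_
    have := congrFun h (k, t k)
    by_contra hne
    simp [ee, hk, ww_apply, hne] at this
    exact hε this

theorem KK_third {t : Fin 3 → Z} {v : Fin 3 → Fin 3 × Z → ZMod 2} {i : Fin 3}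
    (h : ∀ j, j ≠ i → KK t j (v j)) (η : ZMod 2) (hs : ∑ j, v j = η • ww t) : KK t i (v i) := by
  choose! ε hε using h
  refine ⟨η - 1 - ∑ j ∈ Finset.univ.erase i, ε j, ?_⟩
  have e1 : v i + ∑ j ∈ Finset.univ.erase i, v j = η • ww t := by
    rw [Finset.add_sum_erase _ _ (Finset.mem_univ i), hs]
  have e2 : ee i (t i) + ∑ j ∈ Finset.univ.erase i, ee j (t j) = ww t := by
    rw [Finset.add_sum_erase _ (fun j => ee j (t j)) (Finset.mem_univ i)]; rfl
  have e3 : ∑ j ∈ Finset.univ.erase i, v j = ∑ j ∈ Finset.univ.erase i, ee j (t j) +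
      (∑ j ∈ Finset.univ.erase i, ε j) • ww t := by
    rw [Finset.sum_smul, ← Finset.sum_add_distrib]
    exact Finset.sum_congr rfl fun j hj => hε j (Finset.ne_of_mem_erase hj)
  rw [e3] at e1
  rw [sub_smul, sub_smul, one_smul, ← e1]
  rw [eq_sub_of_add_eq' e2]
  abel

def LL (T : Set (Fin 3 → Z)) : Set (Fin 3 → Fin 3 × Z → ZMod 2) :=
  {v | (∑ j, v j = 0 ∧ ¬ ∃ t ∈ T, ∀ j, KK t j (v j)) ∨
    ∃ t ∈ T, (∀ j, KK t j (v j)) ∧ ∑ j, v j = ww t}

theorem eq_of_sum {A : Type} [AddCommGroup A] {v v' : Fin 3 → A} {i : Fin 3}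
    (h : ∀ j, j ≠ i → v j = v' j) (hs : ∑ j, v j = ∑ j, v' j) : v = v' := by
  funext j
  by_cases hj : j = i
  · subst hj
    rw [← Finset.add_sum_erase _ _ (Finset.mem_univ j),
      ← Finset.add_sum_erase _ _ (Finset.mem_univ j)] at hs
    have : ∑ k ∈ Finset.univ.erase j, v k = ∑ k ∈ Finset.univ.erase j, v' k :=
      Finset.sum_congr rfl fun k hk => h k (Finset.ne_of_mem_erase hk)
    rw [this] at hs
    exact add_right_cancel hs
  · exact h j hj

theorem LL_pl {T : Set (Fin 3 → Z)} (hT : PL T) : PL (LL T) := by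
  intro v hv v' hv' i h
  rcases hv with ⟨s1, n1⟩ | ⟨t, ht, k1, s1⟩ <;> rcases hv' with ⟨s2, n2⟩ | ⟨u, hu, k2, s2⟩
  · exact eq_of_sum h (s1.trans s2.symm)
  · exfalso
    refine n1 ⟨u, hu, fun j => ?_⟩
    have hh : ∀ j, j ≠ i → KK u j (v j) := fun j hj => by rw [h j hj]; exact k2 j
    by_cases hj : j = i
    · subst hj
      exact KK_third hh 0 (by rw [s1, zero_smul])
    · exact hh j hj
  · exfalso
    refine n2 ⟨t, ht, fun j => ?_⟩
    have hh : ∀ j, j ≠ i → KK t j (v' j) := fun j hj => by rw [← h j hj]; exact k1 j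
    by_cases hj : j = i
    · subst hj
      exact KK_third hh 0 (by rw [s2, zero_smul])
    · exact hh j hj
  · have htu : t = u := by
      obtain ⟨j, k, hjk, hj, hk⟩ := two_others i
      rcases KK_key hT ht hu (k1 j) (by rw [h j hj]; exact k2 j) with a | a
      · rcases KK_key hT ht hu (k1 k) (by rw [h k hk]; exact k2 k) with b | b
        · exact hT.eq2 ht hu hjk a b
        · exact b
      · exact a
    subst htu
    exact eq_of_sum h (s1.trans s2.symm)

theorem sum_update {A : Type} [AddCommGroup A] (v : Fin 3 → A) (i : Fin 3) (s : A) :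
    ∑ j, Function.update v i (s - ∑ k ∈ Finset.univ.erase i, v k) j = s := by
  rw [← Finset.add_sum_erase _ _ (Finset.mem_univ i), Function.update_self]
  have : ∑ k ∈ Finset.univ.erase i, Function.update v i (s - ∑ k ∈ Finset.univ.erase i, v k) k
      = ∑ k ∈ Finset.univ.erase i, v k :=
    Finset.sum_congr rfl fun k hk => Function.update_of_ne (Finset.ne_of_mem_erase hk) _ _
  rw [this]; abel

theorem LL_tot (T : Set (Fin 3 → Z)) : Tot (fun _ => Set.univ) (LL T) := by
  intro i v _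
  by_cases h : ∃ t ∈ T, ∀ j, j ≠ i → KK t j (v j)
  · obtain ⟨t, ht, hk⟩ := h
    refine ⟨Function.update v i (ww t - ∑ k ∈ Finset.univ.erase i, v k), Or.inr ⟨t, ht, ?_,
      sum_update _ _ _⟩, fun j hj => Function.update_of_ne hj _ _⟩
    have hh : ∀ j, j ≠ i → KK t j
        (Function.update v i (ww t - ∑ k ∈ Finset.univ.erase i, v k) j) := fun j hj => by
      rw [Function.update_of_ne hj]; exact hk j hj
    intro j
    by_cases hj : j = i
    · subst hj
      exact KK_third hh 1 (by rw [sum_update, one_smul])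
    · exact hh j hj
  · refine ⟨Function.update v i (0 - ∑ k ∈ Finset.univ.erase i, v k), Or.inl ⟨sum_update _ _ _,
      ?_⟩, fun j hj => Function.update_of_ne hj _ _⟩
    rintro ⟨t, ht, hk⟩
    refine h ⟨t, ht, fun j hj => ?_⟩
    have := hk j
    rwa [Function.update_of_ne hj] at this

theorem LL_mem {T : Set (Fin 3 → Z)} {t : Fin 3 → Z} (ht : t ∈ T) :
    (fun j => ee j (t j)) ∈ LL T :=
  Or.inr ⟨t, ht, fun j => ⟨0, by simp⟩, rfl⟩

end Embed

theorem exists_label {V : Type} [Finite V] (S : V → ℕ → Prop)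
    (hf : ∀ v n n', S v n → S v n' → n = n') (hi : ∀ v v' n, S v n → S v' n → v = v') :
    ∃ g : V → ℕ, Function.Injective g ∧ ∀ v n, S v n → g v = n := by
  classical
  obtain ⟨c, hc⟩ := exists_injective_nat V
  let a : V → ℕ := fun v => if h : ∃ n, S v n then h.choose else 0
  obtain ⟨N, hN⟩ := (Set.finite_range a).bddAbove
  have ha : ∀ v n, S v n → a v = n := fun v n h => by
    have h' : ∃ n, S v n := ⟨n, h⟩
    simp only [a, dif_pos h']
    exact hf _ _ _ h'.choose_spec h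
  refine ⟨fun v => if ∃ n, S v n then a v else N + 1 + c v, ?_, ?_⟩
  · intro v v' h
    by_cases h1 : ∃ n, S v n <;> by_cases h2 : ∃ n, S v' n <;> simp only [h1, h2, if_true,
      if_false] at h
    · obtain ⟨n, h1⟩ := h1
      obtain ⟨n', h2⟩ := h2
      rw [ha _ _ h1, ha _ _ h2] at h
      subst h
      exact hi _ _ _ h1 h2
    · have := hN ⟨v, rfl⟩
      omega
    · have := hN ⟨v', rfl⟩
      omega
    · exact hc (by omega)
  · intro v n h
    have h' : ∃ n, S v n := ⟨n, h⟩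
    simp only [if_pos h']
    exact ha _ _ h

/-- A finite Latin square whose rows, columns and symbols are natural numbers. -/
structure Cond where
  D : Fin 3 → Set ℕ
  T : Set (Fin 3 → ℕ)
  fin : ∀ j, (D j).Finite
  inD : ∀ t ∈ T, ∀ j, t j ∈ D j
  pl : PL T
  tot : Tot D T

theorem realize_fin {Z : Type} [Finite Z] {T : Set (Fin 3 → Z)} (hT : PL T)
    (R : Fin 3 → Z → ℕ → Prop) (hf : ∀ j z n n', R j z n → R j z n' → n = n')
    (hi : ∀ j z z' n, R j z n → R j z' n → z = z') :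
    ∃ (P : Cond) (f : Fin 3 → Z → ℕ), (∀ j, Function.Injective (f j)) ∧
      (∀ j z n, R j z n → f j z = n) ∧ (∀ j z, f j z ∈ P.D j) ∧
      ∀ t ∈ T, (fun j => f j (t j)) ∈ P.T := by
  classical
  have key : ∀ j : Fin 3, ∃ g : (Fin 3 × Z → ZMod 2) → ℕ, Function.Injective g ∧
      ∀ v n, (∃ z, v = ee j z ∧ R j z n) → g v = n := by
    intro j
    refine exists_label _ ?_ ?_
    · rintro v n n' ⟨z, rfl, h⟩ ⟨z', h1, h'⟩
      rw [← ee_inj j h1] at h'
      exact hf _ _ _ _ h h'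
    · rintro v v' n ⟨z, rfl, h⟩ ⟨z', rfl, h'⟩
      rw [hi _ _ _ _ h h']
  choose g hg hgR using key
  refine ⟨⟨fun j => Set.range (g j), (fun v j => g j (v j)) '' LL T,
    fun j => Set.finite_range _, ?_, ?_, ?_⟩, fun j z => g j (ee j z),
    fun j => (hg j).comp (ee_inj j), fun j z n h => hgR j _ _ ⟨z, rfl, h⟩,
    fun j z => ⟨_, rfl⟩, fun t ht => ⟨_, LL_mem ht, rfl⟩⟩
  · rintro _ ⟨v, _, rfl⟩ j
    exact ⟨_, rfl⟩
  · rintro _ ⟨v, hv, rfl⟩ _ ⟨v', hv', rfl⟩ i h
    rw [LL_pl hT v hv v' hv' i fun j hj => hg j (h j hj)]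
  · intro i v hv
    choose! x hx using hv
    obtain ⟨t, ht, h⟩ := LL_tot T i x fun _ _ => trivial
    exact ⟨_, ⟨t, ht, rfl⟩, fun j hj => by
      show g j (t j) = v j
      rw [h j hj, hx j hj]⟩

theorem realize {Z : Type} (W : Set Z) (hW : W.Finite) {T : Set (Fin 3 → Z)} (hT : PL T)
    (hTW : ∀ t ∈ T, ∀ j, t j ∈ W)
    (R : Fin 3 → Z → ℕ → Prop) (hf : ∀ j z n n', R j z n → R j z n' → n = n')
    (hi : ∀ j z z' n, R j z n → R j z' n → z = z') :
    ∃ (P : Cond) (f : Fin 3 → Z → ℕ), (∀ j, Set.InjOn (f j) W) ∧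
      (∀ j, ∀ z ∈ W, ∀ n, R j z n → f j z = n) ∧ (∀ j, ∀ z ∈ W, f j z ∈ P.D j) ∧
      ∀ t ∈ T, (fun j => f j (t j)) ∈ P.T := by
  classical
  have : Finite W := hW
  have hT' : PL {s : Fin 3 → W | (fun j => (s j : Z)) ∈ T} := by
    intro s hs s' hs' i h
    have := hT _ hs _ hs' i fun j hj => congrArg Subtype.val (h j hj)
    funext j
    exact Subtype.ext (congrFun this j)
  obtain ⟨P, f, h1, h2, h3, h4⟩ := realize_fin hT' (fun j z n => R j z n)
    (fun j z n n' => hf j z n n') (fun j z z' n a b => Subtype.ext (hi j z z' n a b))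
  refine ⟨P, fun j z => if h : z ∈ W then f j ⟨z, h⟩ else 0, ?_, ?_, ?_, ?_⟩
  · intro j z hz z' hz' h
    simp only [dif_pos hz, dif_pos hz'] at h
    exact congrArg Subtype.val (h1 j h)
  · intro j z hz n h
    simp only [dif_pos hz]
    exact h2 j _ _ h
  · intro j z hz
    simp only [dif_pos hz]
    exact h3 j _
  · intro t ht
    have := h4 (fun j => ⟨t j, hTW t ht j⟩) ht
    convert this using 2 with j
    simp only [dif_pos (hTW t ht j)]

end Pool.Agent.H618Z.Latin
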