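import Pool.Agent.H618Z.LatinA

set_option autoImplicit false

namespace Pool.Agent.H618Z.Latin

instance : Preorder Cond where
  le P Q := (∀ j, P.D j ⊆ Q.D j) ∧ P.T ⊆ Q.T
  le_refl _ := ⟨fun _ => subset_rfl, subset_rfl⟩
  le_trans _ _ _ h h' := ⟨fun j => (h.1 j).trans (h'.1 j), h.2.trans h'.2⟩

theorem Cond.le_def {P Q : Cond} : P ≤ Q ↔ (∀ j, P.D j ⊆ Q.D j) ∧ P.T ⊆ Q.T := Iff.rfl

def Cond.W (P : Cond) : Set ℕ := ⋃ j, P.D j

theorem Cond.W_fin (P : Cond) : P.W.Finite := Set.finite_iUnion P.fin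

theorem Cond.sub_W (P : Cond) (j : Fin 3) : P.D j ⊆ P.W := Set.subset_iUnion _ j

theorem Cond.extend (P : Cond) (A : Set ℕ) (hA : A.Finite) :
    ∃ Q : Cond, P ≤ Q ∧ ∀ j, A ⊆ Q.D j := by
  obtain ⟨Q, f, -, h2, h3, h4⟩ := realize (P.W ∪ A) (P.W_fin.union hA) P.pl
    (fun t ht j => Or.inl (P.sub_W j (P.inD t ht j))) (fun _ z n => z = n)
    (fun _ _ _ _ a b => a.symm.trans b) (fun _ _ _ _ a b => a.trans b.symm)
  have hf : ∀ j, ∀ z ∈ P.W ∪ A, f j z = z := fun j z hz => h2 j z hz z rfl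
  refine ⟨Q, ⟨fun j z hz => ?_, fun t ht => ?_⟩, fun j z hz => ?_⟩
  · have hz' : z ∈ P.W ∪ A := Or.inl (P.sub_W j hz)
    rw [← hf j z hz']; exact h3 j z hz'
  · have := h4 t ht
    convert this using 1
    funext j
    exact (hf j _ (Or.inl (P.sub_W j (P.inD t ht j)))).symm
  · have hz' : z ∈ P.W ∪ A := Or.inr hz
    rw [← hf j z hz']; exact h3 j z hz'

/-- Closure hypothesis of the extension property. -/
def Cl {Z : Type} (M : Set (Fin 3 → ℕ)) (T : Set (Fin 3 → Z)) (R : Fin 3 → Z → ℕ → Prop) :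
    Prop :=
  ∀ i, ∀ u ∈ M, (∀ j, j ≠ i → ∃ z, R j z (u j)) → ∃ t ∈ T, ∀ j, R j (t j) (u j)

abbrev Idx : Type := Σ n : ℕ, Set (Fin 3 → Fin n) × (Fin 3 → Fin n → Option ℕ)

def Dense1 (d : Idx) : Set Cond :=
  {P | (∀ j z m, d.2.2 j z = some m → m ∈ P.D j) ∧
    (PL d.2.1 → (∀ j z z' m, d.2.2 j z = some m → d.2.2 j z' = some m → z = z') →
      Cl P.T d.2.1 (fun j z m => d.2.2 j z = some m) →
      ∃ f : Fin 3 → Fin d.1 → ℕ, (∀ j, Function.Injective (f j)) ∧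
        (∀ j z m, d.2.2 j z = some m → f j z = m) ∧ ∀ t ∈ d.2.1, (fun j => f j (t j)) ∈ P.T)}

theorem dense1_cofinal (d : Idx) (P0 : Cond) : ∃ Q ∈ Dense1 d, P0 ≤ Q := by
  classical
  obtain ⟨n, T, ρ⟩ := d
  have hA : {m : ℕ | ∃ j z, ρ j z = some m}.Finite := by
    refine (Set.finite_range (fun p : Fin 3 × Fin n => (ρ p.1 p.2).getD 0)).subset ?_
    rintro m ⟨j, z, h⟩
    exact ⟨(j, z), by simp [h]⟩
  obtain ⟨P, hP0, hPA⟩ := P0.extend _ hA
  have hlab : ∀ j z m, ρ j z = some m → m ∈ P.D j := fun j z m h => hPA j ⟨j, z, h⟩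
  by_cases hc : PL T ∧ (∀ j z z' m, ρ j z = some m → ρ j z' = some m → z = z') ∧
      Cl P.T T (fun j z m => ρ j z = some m)
  swap
  · exact ⟨P, ⟨hlab, fun a b c => absurd ⟨a, b, c⟩ hc⟩, hP0⟩
  obtain ⟨hT, hinj, hcl⟩ := hc
  let α : Fin 3 → Fin n → ℕ ⊕ Fin n := fun j z => (ρ j z).elim (Sum.inr z) Sum.inl
  have hα1 : ∀ j z m, α j z = Sum.inl m ↔ ρ j z = some m := by
    intro j z m
    simp only [α]
    cases ρ j z <;> simp
  have hαinj : ∀ j, Function.Injective (α j) := by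
    intro j z z' h
    cases h1 : ρ j z with
    | none =>
      cases h2 : ρ j z' with
      | none => simpa [α, h1, h2] using h
      | some m => simp [α, h1, h2] at h
    | some m =>
      have := (hα1 j z' m).1 (h ▸ (hα1 j z m).2 h1)
      exact hinj j z z' m h1 this
  let W : Set (ℕ ⊕ Fin n) := Sum.inl '' P.W ∪ Set.range Sum.inr
  have hW : W.Finite := (P.W_fin.image _).union (Set.finite_range _)
  have hαW : ∀ j z, α j z ∈ W := by
    intro j z
    cases h1 : ρ j z with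
    | none => exact Or.inr ⟨z, by simp [α, h1]⟩
    | some m => exact Or.inl ⟨m, P.sub_W j (hlab j z m h1), ((hα1 j z m).2 h1).symm⟩
  let T2 : Set (Fin 3 → ℕ ⊕ Fin n) :=
    (fun t j => Sum.inl (t j)) '' P.T ∪ (fun t j => α j (t j)) '' T
  have mixed : ∀ t ∈ P.T, ∀ s ∈ T, ∀ i, (∀ j, j ≠ i → Sum.inl (t j) = α j (s j)) →
      (fun j => Sum.inl (t j)) = fun j => α j (s j) := by
    intro t ht s hs i h
    obtain ⟨s', hs', h'⟩ := hcl i t ht fun j hj => ⟨s j, (hα1 _ _ _).1 (h j hj).symm⟩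
    have : s' = s := hT s' hs' s hs i fun j hj =>
      hinj j _ _ _ (h' j) ((hα1 _ _ _).1 (h j hj).symm)
    subst this
    funext j
    exact ((hα1 _ _ _).2 (h' j)).symm
  have hT2 : PL T2 := by
    rintro _ (⟨t, ht, rfl⟩ | ⟨t, ht, rfl⟩) _ (⟨s, hs, rfl⟩ | ⟨s, hs, rfl⟩) i h
    · rw [P.pl t ht s hs i fun j hj => Sum.inl_injective (h j hj)]
    · exact mixed t ht s hs i h
    · exact (mixed s hs t ht i fun j hj => (h j hj).symm).symm
    · rw [hT t ht s hs i fun j hj => hαinj j (h j hj)]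
  obtain ⟨Q, f, h1, h2, h3, h4⟩ := realize W hW hT2 (by
      rintro _ (⟨t, ht, rfl⟩ | ⟨t, ht, rfl⟩) j
      · exact Or.inl ⟨t j, P.sub_W j (P.inD t ht j), rfl⟩
      · exact hαW j _) (fun _ z m => z = Sum.inl m)
    (fun _ _ _ _ a b => Sum.inl_injective (a.symm.trans b)) (fun _ _ _ _ a b => a.trans b.symm)
  have hf : ∀ j, ∀ m ∈ P.W, f j (Sum.inl m) = m := fun j m hm =>
    h2 j _ (Or.inl ⟨m, hm, rfl⟩) m rfl
  have hPQ : P ≤ Q := by
    refine ⟨fun j m hm => ?_, fun t ht => ?_⟩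
    · rw [← hf j m (P.sub_W j hm)]
      exact h3 j _ (Or.inl ⟨m, P.sub_W j hm, rfl⟩)
    · have := h4 _ (Or.inl ⟨t, ht, rfl⟩)
      convert this using 1
      funext j
      exact (hf j _ (P.sub_W j (P.inD t ht j))).symm
  refine ⟨Q, ⟨fun j z m h => hPQ.1 j (hlab j z m h), fun _ _ _ => ⟨fun j z => f j (α j z),
    fun j z z' h => hαinj j (h1 j (hαW j z) (hαW j z') h), fun j z m h => ?_,
    fun t ht => h4 _ (Or.inr ⟨t, ht, rfl⟩)⟩⟩, hP0.trans hPQ⟩
  show f j (α j z) = m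
  rw [(hα1 j z m).2 h]
  exact hf j m (P.sub_W j (hlab j z m h))

/-- `C` is closed in `M`. -/
def Closed (M : Set (Fin 3 → ℕ)) (C : Fin 3 → Set ℕ) : Prop :=
  ∀ i, ∀ u ∈ M, (∀ j, j ≠ i → u j ∈ C j) → u i ∈ C i

def EP (M : Set (Fin 3 → ℕ)) : Prop :=
  ∀ (Z : Type) (W : Set Z), W.Finite → ∀ T : Set (Fin 3 → Z), PL T → (∀ t ∈ T, ∀ j, t j ∈ W) →
    ∀ R : Fin 3 → Z → ℕ → Prop, (∀ j z n, R j z n → z ∈ W) →
      (∀ j z n n', R j z n → R j z n' → n = n') → (∀ j z z' n, R j z n → R j z' n → z = z') →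
      Cl M T R → ∃ f : Fin 3 → Z → ℕ, (∀ j, Set.InjOn (f j) W) ∧
        (∀ j z n, R j z n → f j z = n) ∧ ∀ t ∈ T, (fun j => f j (t j)) ∈ M

structure Gen (M : Set (Fin 3 → ℕ)) : Prop where
  pl : PL M
  tot : Tot (fun _ => Set.univ) M
  loc : ∀ A : Set ℕ, A.Finite → ∃ C : Fin 3 → Set ℕ, (∀ j, (C j).Finite) ∧ (∀ j, A ⊆ C j) ∧
    Closed M C
  ep : EP M

def cond0 : Cond where
  D _ := ∅
  T := ∅
  fin _ := Set.finite_empty
  inD _ h := h.elim
  pl _ h := h.elim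
  tot i v h := by
    obtain ⟨j, _, _, hj, _⟩ := two_others i
    exact (h j hj).elim

theorem exists_gen : ∃ M, Gen M := by
  classical
  let _ : Encodable Idx := Encodable.ofCountable Idx
  let 𝒟 : Idx → Order.Cofinal Cond := fun d => ⟨Dense1 d, fun P => dense1_cofinal d P⟩
  let I := Order.idealOfCofinals cond0 𝒟
  have hmeet : ∀ d, ∃ P ∈ I, P ∈ Dense1 d := fun d => by
    obtain ⟨P, h1, h2⟩ := Order.cofinal_meets_idealOfCofinals cond0 𝒟 d
    exact ⟨P, h2, h1⟩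
  let M : Set (Fin 3 → ℕ) := {t | ∃ P ∈ I, t ∈ P.T}
  have hpl : PL M := by
    rintro t ⟨P, hP, ht⟩ u ⟨Q, hQ, hu⟩ i h
    obtain ⟨S, -, h1, h2⟩ := I.directed P hP Q hQ
    exact S.pl t (h1.2 ht) u (h2.2 hu) i h
  have hcov : ∀ A : Set ℕ, A.Finite → ∃ P ∈ I, ∀ j, A ⊆ P.D j := by
    intro A hA
    obtain ⟨n, g, hg⟩ := hA.fin_embedding
    obtain ⟨P, hP, h, -⟩ := hmeet ⟨n, ∅, fun _ z => some (g z)⟩
    refine ⟨P, hP, fun j m hm => ?_⟩
    rw [← hg] at hm
    obtain ⟨z, rfl⟩ := hm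
    exact h j z _ rfl
  refine ⟨M, hpl, ?_, ?_, ?_⟩
  · intro i v _
    obtain ⟨P, hP, h⟩ := hcov _ (Set.finite_range v)
    obtain ⟨t, ht, h'⟩ := P.tot i v fun j _ => h j ⟨j, rfl⟩
    exact ⟨t, ⟨P, hP, ht⟩, h'⟩
  · intro A hA
    obtain ⟨P, hP, h⟩ := hcov A hA
    refine ⟨P.D, P.fin, h, fun i u hu hD => ?_⟩
    obtain ⟨t, ht, h'⟩ := P.tot i u hD
    rw [← hpl t ⟨P, hP, ht⟩ u hu i h']
    exact P.inD t ht i
  · intro Z W hW T hT hTW R hRW hf hi hcl
    obtain ⟨n, g, hg⟩ := hW.fin_embedding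
    have hgW : ∀ z ∈ W, ∃ k, g k = z := fun z hz => by rw [← hg] at hz; exact hz
    let ρ : Fin 3 → Fin n → Option ℕ := fun j k =>
      if h : ∃ m, R j (g k) m then some h.choose else none
    have hρ : ∀ j k m, ρ j k = some m ↔ R j (g k) m := by
      intro j k m
      by_cases h : ∃ m, R j (g k) m
      · simp only [ρ, dif_pos h, Option.some.injEq]
        exact ⟨fun e => e ▸ h.choose_spec, fun e => hf _ _ _ _ h.choose_spec e⟩
      · simp only [ρ, dif_neg h]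
        exact ⟨fun e => by simp at e, fun e => absurd ⟨m, e⟩ h⟩
    obtain ⟨P, hP, -, h⟩ := hmeet ⟨n, {s | (fun j => g (s j)) ∈ T}, ρ⟩
    obtain ⟨f, h1, h2, h3⟩ := h (by
        intro s hs s' hs' i h
        have := hT _ hs _ hs' i fun j hj => congrArg g (h j hj)
        funext j
        exact g.injective (congrFun this j))
      (fun j z z' m a b => g.injective (hi j _ _ m ((hρ _ _ _).1 a) ((hρ _ _ _).1 b))) (by
        intro i u hu h
        obtain ⟨t, ht, h'⟩ := hcl i u ⟨P, hP, hu⟩ fun j hj => by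
          obtain ⟨z, hz⟩ := h j hj
          exact ⟨g z, (hρ _ _ _).1 hz⟩
        choose s hs using fun j => hgW (t j) (hTW t ht j)
        refine ⟨s, ?_, fun j => (hρ _ _ _).2 (by rw [hs j]; exact h' j)⟩
        show (fun j => g (s j)) ∈ T
        rw [funext hs]; exact ht)
    choose r hr using hgW
    refine ⟨fun j z => if h : z ∈ W then f j (r z h) else 0, ?_, ?_, ?_⟩
    · intro j z hz z' hz' e
      simp only [dif_pos hz, dif_pos hz'] at e
      rw [← hr z hz, ← hr z' hz', h1 j e]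
    · intro j z m hR
      simp only [dif_pos (hRW j z m hR)]
      exact h2 j _ m ((hρ _ _ _).2 (by rw [hr]; exact hR))
    · intro t ht
      refine ⟨P, hP, ?_⟩
      have := h3 (fun j => r (t j) (hTW t ht j)) (by
        show (fun j => g (r (t j) (hTW t ht j))) ∈ T
        rw [funext fun j => hr (t j) (hTW t ht j)]; exact ht)
      convert this using 2 with j
      simp only [dif_pos (hTW t ht j)]

def conj (π : Equiv.Perm (Fin 3)) {Z : Type} (M : Set (Fin 3 → Z)) : Set (Fin 3 → Z) :=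
  {t | (fun j => t (π j)) ∈ M}

theorem PL.conj {Z : Type} {M : Set (Fin 3 → Z)} (h : PL M) (π : Equiv.Perm (Fin 3)) :
    PL (conj π M) := by
  intro t ht u hu i hh
  have := h _ ht _ hu (π.symm i) fun j hj => hh (π j) fun e => hj (by rw [← e]; simp)
  funext j
  simpa using congrFun this (π.symm j)

theorem Gen.conj {M : Set (Fin 3 → ℕ)} (h : Gen M) (π : Equiv.Perm (Fin 3)) :
    Gen (conj π M) := by
  refine ⟨h.pl.conj π, ?_, ?_, ?_⟩
  · intro i v _
    obtain ⟨t, ht, h'⟩ := h.tot (π.symm i) (fun j => v (π j)) fun _ _ => trivial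
    refine ⟨fun j => t (π.symm j), by simpa [Latin.conj] using ht, fun j hj => ?_⟩
    simpa using h' (π.symm j) fun e => hj (π.symm.injective e)
  · intro A hA
    obtain ⟨C, h1, h2, h3⟩ := h.loc A hA
    refine ⟨fun j => C (π.symm j), fun j => h1 _, fun j => h2 _, fun i u hu hh => ?_⟩
    have := h3 (π.symm i) _ hu fun j hj => by
      simpa using hh (π j) fun e => hj (by rw [← e]; simp)
    simpa using this
  · intro Z W hW T hT hTW R hRW hf hi hcl
    obtain ⟨f, h1, h2, h3⟩ := h.ep Z W hW (Latin.conj π.symm T) (hT.conj _)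
      (fun t ht j => by simpa using hTW _ ht (π j)) (fun j => R (π j))
      (fun j => hRW (π j)) (fun j => hf (π j)) (fun j => hi (π j)) (by
        intro i u hu hh
        obtain ⟨t, ht, h'⟩ := hcl (π i) (fun j => u (π.symm j))
          (by simpa [Latin.conj] using hu) fun j hj => by
            simpa using hh (π.symm j) fun e => hj (by rw [← e]; simp)
        refine ⟨fun j => t (π j), by simpa [Latin.conj] using ht, fun j => ?_⟩
        simpa using h' (π j))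
    refine ⟨fun j => f (π.symm j), fun j => h1 _, fun j z n hR => h2 _ z n (by simpa using hR),
      fun t ht => ?_⟩
    have := h3 (fun j => t (π j)) (by simpa [Latin.conj] using ht)
    simpa [Latin.conj] using this

end Pool.Agent.H618Z.Latin
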