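import Pool.Agent.H618Z.LatinB

set_option autoImplicit false

namespace Pool.Agent.H618Z.Latin

/-- Finite closed isomorphisms between pieces of `M` and `N`. -/
structure PI (M N : Set (Fin 3 → ℕ)) where
  R : Fin 3 → ℕ → ℕ → Prop
  fin : ∀ j, {p : ℕ × ℕ | R j p.1 p.2}.Finite
  hf : ∀ j x y y', R j x y → R j x y' → y = y'
  hi : ∀ j x x' y, R j x y → R j x' y → x = x'
  good : ∀ i, ∀ t ∈ M, ∀ u ∈ N, (∀ j, j ≠ i → R j (t j) (u j)) → R i (t i) (u i)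

variable {M N : Set (Fin 3 → ℕ)}

instance : Preorder (PI M N) where
  le P Q := ∀ j x y, P.R j x y → Q.R j x y
  le_refl _ _ _ _ h := h
  le_trans _ _ _ h h' j x y a := h' j x y (h j x y a)

def PI.symm (P : PI M N) : PI N M where
  R j x y := P.R j y x
  fin j := ((P.fin j).image Prod.swap).subset fun p hp => ⟨p.swap, hp, rfl⟩
  hf j x y y' a b := P.hi j y y' x a b
  hi j x x' y a b := P.hf j y x x' a b
  good i t ht u hu h := P.good i u hu t ht h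

def PI.ofMap (hN : PL N) (C : Fin 3 → Set ℕ) (hC : ∀ j, (C j).Finite) (hcl : Closed M C)
    (g : Fin 3 → ℕ → ℕ) (hg : ∀ j, Set.InjOn (g j) (C j))
    (hm : ∀ t ∈ M, (∀ j, t j ∈ C j) → (fun j => g j (t j)) ∈ N) : PI M N where
  R j x y := x ∈ C j ∧ g j x = y
  fin j := ((hC j).image fun x => (x, g j x)).subset fun p hp => ⟨p.1, hp.1, by
    ext
    · rfl
    · exact hp.2⟩
  hf _ _ _ _ a b := a.2.symm.trans b.2
  hi j _ _ _ a b := hg j a.1 b.1 (a.2.trans b.2.symm)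
  good i t ht u hu h := by
    have h1 : t i ∈ C i := hcl i t ht fun j hj => (h j hj).1
    have h2 : ∀ j, t j ∈ C j := fun j => by
      by_cases hj : j = i
      · rw [hj]; exact h1
      · exact (h j hj).1
    exact ⟨h1, congrFun (hN _ (hm t ht h2) u hu i fun j hj => (h j hj).2) i⟩

theorem PI.forth (hM : Gen M) (hN : Gen N) (P : PI M N) (x : ℕ) :
    ∃ Q : PI M N, P ≤ Q ∧ ∀ j, ∃ y, Q.R j x y := by
  have hA : (insert x (⋃ j, Prod.fst '' {p : ℕ × ℕ | P.R j p.1 p.2})).Finite :=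
    (Set.finite_iUnion fun j => (P.fin j).image _).insert x
  obtain ⟨C, h1, h2, h3⟩ := hM.loc _ hA
  have hRC : ∀ j k a b, P.R j a b → a ∈ C k := fun j k a b h =>
    h2 k (Or.inr (Set.mem_iUnion.2 ⟨j, (a, b), h, rfl⟩))
  obtain ⟨f, f1, f2, f3⟩ := hN.ep ℕ (⋃ j, C j) (Set.finite_iUnion h1)
    {t | t ∈ M ∧ ∀ j, t j ∈ C j} (fun t ht u hu => hM.pl t ht.1 u hu.1)
    (fun t ht j => Set.mem_iUnion.2 ⟨j, ht.2 j⟩) P.R
    (fun j z n h => Set.mem_iUnion.2 ⟨j, hRC j j z n h⟩) P.hf P.hi (by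
      intro i u hu h
      choose! z hz using h
      obtain ⟨t, ht, h'⟩ := hM.tot i z fun _ _ => trivial
      have a : ∀ j, j ≠ i → P.R j (t j) (u j) := fun j hj => by rw [h' j hj]; exact hz j hj
      have b : ∀ j, P.R j (t j) (u j) := fun j => by
        by_cases hj : j = i
        · rw [hj]; exact P.good i t ht u hu a
        · exact a j hj
      exact ⟨t, ⟨ht, fun j => hRC j j _ _ (b j)⟩, b⟩)
  refine ⟨PI.ofMap hN.pl C h1 h3 f (fun j => (f1 j).mono (Set.subset_iUnion _ j))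
    (fun t ht h => f3 t ⟨ht, h⟩), fun j a b h => ⟨hRC j j a b h, f2 j a b h⟩, fun j =>
    ⟨f j x, h2 j (Or.inl rfl), rfl⟩⟩

theorem PI.ext_iso (hM : Gen M) (hN : Gen N) (P : PI M N) :
    ∃ f : Fin 3 → ℕ ≃ ℕ, (∀ j x y, P.R j x y → f j x = y) ∧
      ∀ t, t ∈ M ↔ (fun j => f j (t j)) ∈ N := by
  let 𝒟 : ℕ ⊕ ℕ → Order.Cofinal (PI M N) := fun d => match d with
    | Sum.inl x => ⟨{Q | ∀ j, ∃ y, Q.R j x y}, fun P => by
        obtain ⟨Q, h1, h2⟩ := P.forth hM hN x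
        exact ⟨Q, h2, h1⟩⟩
    | Sum.inr y => ⟨{Q | ∀ j, ∃ x, Q.R j x y}, fun P => by
        obtain ⟨Q, h1, h2⟩ := P.symm.forth hN hM y
        exact ⟨Q.symm, h2, fun j a b h => h1 j b a h⟩⟩
  let I := Order.idealOfCofinals P 𝒟
  let S : Fin 3 → ℕ → ℕ → Prop := fun j x y => ∃ Q ∈ I, Q.R j x y
  have s1 : ∀ j x, ∃ y, S j x y := fun j x => by
    obtain ⟨Q, h1, h2⟩ := Order.cofinal_meets_idealOfCofinals P 𝒟 (Sum.inl x)
    obtain ⟨y, hy⟩ := h1 j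
    exact ⟨y, Q, h2, hy⟩
  have s2 : ∀ j y, ∃ x, S j x y := fun j y => by
    obtain ⟨Q, h1, h2⟩ := Order.cofinal_meets_idealOfCofinals P 𝒟 (Sum.inr y)
    obtain ⟨x, hx⟩ := h1 j
    exact ⟨x, Q, h2, hx⟩
  have s3 : ∀ j x y y', S j x y → S j x y' → y = y' := by
    rintro j x y y' ⟨Q, hQ, a⟩ ⟨Q', hQ', b⟩
    obtain ⟨U, -, h1, h2⟩ := I.directed Q hQ Q' hQ'
    exact U.hf j x y y' (h1 _ _ _ a) (h2 _ _ _ b)
  have s4 : ∀ j x x' y, S j x y → S j x' y → x = x' := by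
    rintro j x x' y ⟨Q, hQ, a⟩ ⟨Q', hQ', b⟩
    obtain ⟨U, -, h1, h2⟩ := I.directed Q hQ Q' hQ'
    exact U.hi j x x' y (h1 _ _ _ a) (h2 _ _ _ b)
  have s5 : ∀ i, ∀ t ∈ M, ∀ u ∈ N, (∀ j, j ≠ i → S j (t j) (u j)) → S i (t i) (u i) := by
    intro i t ht u hu h
    obtain ⟨j, k, hjk, hj, hk⟩ := two_others i
    obtain ⟨Q, hQ, a⟩ := h j hj
    obtain ⟨Q', hQ', b⟩ := h k hk
    obtain ⟨U, hU, h1, h2⟩ := I.directed Q hQ Q' hQ'
    refine ⟨U, hU, U.good i t ht u hu fun l hl => ?_⟩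
    have : l = j ∨ l = k := by omega
    rcases this with rfl | rfl
    · exact h1 _ _ _ a
    · exact h2 _ _ _ b
  choose f hf using s1
  choose g hg using s2
  let e : Fin 3 → ℕ ≃ ℕ := fun j => ⟨f j, g j, fun x => s4 j _ _ _ (hg j _) (hf j x),
    fun y => s3 j _ _ _ (hf j _) (hg j y)⟩
  refine ⟨e, fun j x y h => s3 j x _ _ (hf j x) ⟨P, Order.mem_idealOfCofinals P 𝒟, h⟩,
    fun t => ⟨fun ht => ?_, fun ht => ?_⟩⟩
  · obtain ⟨u, hu, h⟩ := hN.tot 0 (fun j => f j (t j)) fun _ _ => trivial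
    have := s5 0 t ht u hu fun j hj => by rw [h j hj]; exact hf j _
    convert hu using 1
    funext j
    by_cases hj : j = 0
    · subst hj; exact s3 0 _ _ _ (hf 0 _) this
    · exact (h j hj).symm
  · obtain ⟨u, hu, h⟩ := hM.tot 0 t fun _ _ => trivial
    have := s5 0 u hu _ ht fun j hj => by rw [h j hj]; exact hf j _
    convert hu using 1
    funext j
    by_cases hj : j = 0
    · subst hj; exact s4 0 _ _ _ (hf 0 _) this
    · exact (h j hj).symm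

theorem ext_map (hM : Gen M) (hN : Gen N) (C : Fin 3 → Set ℕ) (hC : ∀ j, (C j).Finite)
    (hcl : Closed M C) (g : Fin 3 → ℕ → ℕ) (hg : ∀ j, Set.InjOn (g j) (C j))
    (hm : ∀ t ∈ M, (∀ j, t j ∈ C j) → (fun j => g j (t j)) ∈ N) :
    ∃ f : Fin 3 → ℕ ≃ ℕ, (∀ j, ∀ x ∈ C j, f j x = g j x) ∧
      ∀ t, t ∈ M ↔ (fun j => f j (t j)) ∈ N := by
  obtain ⟨f, h1, h2⟩ := (PI.ofMap hN.pl C hC hcl g hg hm).ext_iso hM hN
  exact ⟨f, fun j x hx => h1 j x _ ⟨hx, rfl⟩, h2⟩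

theorem trans_cells (hM : Gen M) (hN : Gen N) {c d : Fin 3 → ℕ} (hc : c ∈ M) (hd : d ∈ N) :
    ∃ f : Fin 3 → ℕ ≃ ℕ, (∀ j, f j (c j) = d j) ∧ ∀ t, t ∈ M ↔ (fun j => f j (t j)) ∈ N := by
  obtain ⟨f, h1, h2⟩ := ext_map hM hN (fun j => {c j}) (fun j => Set.finite_singleton _)
    (fun i u hu h => congrFun (hM.pl u hu c hc i h) i) (fun j _ => d j)
    (fun j x hx y hy _ => hx.trans hy.symm) (fun _ _ _ => hd)
  exact ⟨f, fun j => h1 j _ rfl, h2⟩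

theorem al_inj {a b x y : ℕ}
    (h : (if x = a then Sum.inl b else Sum.inr x : ℕ ⊕ ℕ) =
      if y = a then Sum.inl b else Sum.inr y) : x = y := by
  split_ifs at h <;> simp_all

theorem a_g {a b x y : ℕ} (h : (if x = a then (0, b) else (1, x) : ℕ × ℕ) = (0, y)) :
    x = a ∧ y = b := by
  split_ifs at h <;> simp_all

theorem b_g {a a' b x y : ℕ}
    (h : (if x = a then (0, b) else if x = a' then (1, x) else (2, x) : ℕ × ℕ) = (0, y)) :
    x = a ∧ y = b := by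
  split_ifs at h <;> simp_all

theorem a_b {a a' b b' x y : ℕ} (hb : b ≠ b')
    (h : (if x = a then (0, b) else (1, x) : ℕ × ℕ) =
      if y = a then (0, b') else if y = a' then (1, y) else (2, y)) : x = a' ∧ y = a' := by
  split_ifs at h <;> simp_all

theorem a_a {a b x y : ℕ}
    (h : (if x = a then (0, b) else (1, x) : ℕ × ℕ) = if y = a then (0, b) else (1, y)) :
    x = y := by
  split_ifs at h <;> simp_all

theorem b_b {a a' b x y : ℕ}
    (h : (if x = a then (0, b) else if x = a' then (1, x) else (2, x) : ℕ × ℕ) =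
      if y = a then (0, b) else if y = a' then (1, y) else (2, y)) : x = y := by
  split_ifs at h <;> simp_all

/-- Gluing a copy of a piece of `N` to a piece of `M` along one cell. -/
theorem gadget1 (hM : Gen M) (hN : Gen N) {c c' d d' : Fin 3 → ℕ} (hc : c ∈ N)
    (hd : d ∈ M) :
    ∃ f : Fin 3 → ℕ ≃ ℕ, (∀ j, f j (c j) = d j) ∧ (∀ j, f j (c' j) = d' j → c' j = c j ∧ d' j = d j) ∧
      ∀ t, t ∈ N ↔ (fun j => f j (t j)) ∈ M := by
  classical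
  obtain ⟨A, a1, a2, a3⟩ := hN.loc _ ((Set.finite_range c).union (Set.finite_range c'))
  obtain ⟨B, b1, b2, b3⟩ := hM.loc _ ((Set.finite_range d).union (Set.finite_range d'))
  have hdB : ∀ j, d j ∈ B j := fun j => b2 j (Or.inl ⟨j, rfl⟩)
  let α : Fin 3 → ℕ → ℕ ⊕ ℕ := fun j x => if x = c j then Sum.inl (d j) else Sum.inr x
  have hα : ∀ j x y, α j x = Sum.inl y → x = c j ∧ y = d j := by
    intro j x y h
    by_cases hx : x = c j
    · simp only [α, if_pos hx, Sum.inl.injEq] at h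
      exact ⟨hx, h.symm⟩
    · simp [α, hx] at h
  have hαinj : ∀ j, Function.Injective (α j) := fun j x y h => al_inj h
  let W : Set (ℕ ⊕ ℕ) := Sum.inl '' (⋃ j, B j) ∪ Sum.inr '' (⋃ j, A j)
  have hW : W.Finite := ((Set.finite_iUnion b1).image _).union ((Set.finite_iUnion a1).image _)
  have hlW : ∀ j, ∀ x ∈ B j, Sum.inl x ∈ W := fun j x hx =>
    Or.inl ⟨x, Set.mem_iUnion.2 ⟨j, hx⟩, rfl⟩
  have hαW : ∀ j, ∀ x ∈ A j, α j x ∈ W := by
    intro j x hx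
    by_cases h : x = c j
    · simp only [α, if_pos h]; exact hlW j _ (hdB j)
    · simp only [α, if_neg h]; exact Or.inr ⟨x, Set.mem_iUnion.2 ⟨j, hx⟩, rfl⟩
  let T : Set (Fin 3 → ℕ ⊕ ℕ) :=
    (fun t j => Sum.inl (t j)) '' {t | t ∈ M ∧ ∀ j, t j ∈ B j} ∪
      (fun t j => α j (t j)) '' {t | t ∈ N ∧ ∀ j, t j ∈ A j}
  have mixed : ∀ t ∈ M, ∀ s ∈ N, ∀ i, (∀ j, j ≠ i → Sum.inl (t j) = α j (s j)) →
      (fun j => Sum.inl (t j)) = fun j => α j (s j) := by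
    intro t ht s hs i h
    have e1 : s = c := hN.pl s hs c hc i fun j hj => (hα _ _ _ (h j hj).symm).1
    have e2 : t = d := hM.pl t ht d hd i fun j hj => (hα _ _ _ (h j hj).symm).2
    subst e1 e2
    funext j
    simp [α]
  have hT : PL T := by
    rintro _ (⟨t, ht, rfl⟩ | ⟨t, ht, rfl⟩) _ (⟨s, hs, rfl⟩ | ⟨s, hs, rfl⟩) i h
    · rw [hM.pl t ht.1 s hs.1 i fun j hj => Sum.inl_injective (h j hj)]
    · exact mixed t ht.1 s hs.1 i h
    · exact (mixed s hs.1 t ht.1 i fun j hj => (h j hj).symm).symm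
    · rw [hN.pl t ht.1 s hs.1 i fun j hj => hαinj j (h j hj)]
  obtain ⟨g, g1, g2, g3⟩ := hM.ep (ℕ ⊕ ℕ) W hW T hT (by
      rintro _ (⟨t, ht, rfl⟩ | ⟨t, ht, rfl⟩) j
      · exact hlW j _ (ht.2 j)
      · exact hαW j _ (ht.2 j)) (fun j z m => z = Sum.inl m ∧ m ∈ B j)
    (fun j z m h => by rw [h.1]; exact hlW j _ h.2)
    (fun _ _ _ _ a b => Sum.inl_injective (a.1.symm.trans b.1))
    (fun _ _ _ _ a b => a.1.trans b.1.symm) (by
      intro i u hu h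
      have h1 : ∀ j, j ≠ i → u j ∈ B j := fun j hj => (h j hj).choose_spec.2
      have h2 : ∀ j, u j ∈ B j := fun j => by
        by_cases hj : j = i
        · rw [hj]; exact b3 i u hu h1
        · exact h1 j hj
      exact ⟨_, Or.inl ⟨u, ⟨hu, h2⟩, rfl⟩, fun j => ⟨rfl, h2 j⟩⟩)
  have hg : ∀ j, ∀ m ∈ B j, g j (Sum.inl m) = m := fun j m hm => g2 j _ m ⟨rfl, hm⟩
  obtain ⟨f, f1, f2⟩ := ext_map hN hM A a1 a3 (fun j x => g j (α j x))
    (fun j x hx y hy h => hαinj j (g1 j (hαW j x hx) (hαW j y hy) h))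
    (fun t ht h => g3 _ (Or.inr ⟨t, ⟨ht, h⟩, rfl⟩))
  refine ⟨f, fun j => ?_, fun j h => ?_, f2⟩
  · rw [f1 j _ (a2 j (Or.inl ⟨j, rfl⟩))]
    simp only [α, if_true]
    exact hg j _ (hdB j)
  · have hc' : c' j ∈ A j := a2 j (Or.inr ⟨j, rfl⟩)
    have hd' : d' j ∈ B j := b2 j (Or.inr ⟨j, rfl⟩)
    rw [f1 j _ hc', ← hg j _ hd'] at h
    exact hα j _ _ (g1 j (hαW j _ hc') (hlW j _ hd') h)

/-- Two copies of a piece around `c, c'` glued along `c'` and attached to `d` and `e`. -/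
theorem gadget2 (hM : Gen M) {c c' d e : Fin 3 → ℕ} (hc : c ∈ M) (hc' : c' ∈ M) (hd : d ∈ M)
    (he : e ∈ M) (hcc : ∀ j, c' j ≠ c j) (hde : ∀ j, d j ≠ e j) :
    ∃ f f' : Fin 3 → ℕ ≃ ℕ, (∀ j, f j (c j) = d j) ∧ (∀ j, f' j (c j) = e j) ∧
      (∀ j, f j (c' j) = f' j (c' j)) ∧ (∀ t, t ∈ M ↔ (fun j => f j (t j)) ∈ M) ∧
      ∀ t, t ∈ M ↔ (fun j => f' j (t j)) ∈ M := by
  classical
  obtain ⟨A, a1, a2, a3⟩ := hM.loc _ ((Set.finite_range c).union (Set.finite_range c'))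
  obtain ⟨B, b1, b2, b3⟩ := hM.loc _ ((Set.finite_range d).union (Set.finite_range e))
  have hdB : ∀ j, d j ∈ B j := fun j => b2 j (Or.inl ⟨j, rfl⟩)
  have heB : ∀ j, e j ∈ B j := fun j => b2 j (Or.inr ⟨j, rfl⟩)
  have hcA : ∀ j, c j ∈ A j := fun j => a2 j (Or.inl ⟨j, rfl⟩)
  have hcA' : ∀ j, c' j ∈ A j := fun j => a2 j (Or.inr ⟨j, rfl⟩)
  let γ : ℕ → ℕ × ℕ := fun x => (0, x)
  let α : Fin 3 → ℕ → ℕ × ℕ := fun j x => if x = c j then (0, d j) else (1, x)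
  let β : Fin 3 → ℕ → ℕ × ℕ := fun j x =>
    if x = c j then (0, e j) else if x = c' j then (1, x) else (2, x)
  have hγinj : Function.Injective γ := fun x y h => congrArg Prod.snd h
  have hα : ∀ j x y, α j x = γ y → x = c j ∧ y = d j := fun j x y h => a_g h
  have hβ : ∀ j x y, β j x = γ y → x = c j ∧ y = e j := fun j x y h => b_g h
  have hαβ : ∀ j x y, α j x = β j y → x = c' j ∧ y = c' j := fun j x y h => a_b (hde j) h
  have hαinj : ∀ j, Function.Injective (α j) := fun j x y h => a_a h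
  have hβinj : ∀ j, Function.Injective (β j) := fun j x y h => b_b h
  have hαβ' : ∀ j, α j (c' j) = β j (c' j) := fun j => by simp [α, β, hcc j]
  let U : Set ℕ := (⋃ j, B j) ∪ ⋃ j, A j
  have hU : U.Finite := (Set.finite_iUnion b1).union (Set.finite_iUnion a1)
  have hBU : ∀ j, ∀ x ∈ B j, x ∈ U := fun j x hx => Or.inl (Set.mem_iUnion.2 ⟨j, hx⟩)
  have hAU : ∀ j, ∀ x ∈ A j, x ∈ U := fun j x hx => Or.inr (Set.mem_iUnion.2 ⟨j, hx⟩)
  let W : Set (ℕ × ℕ) := Set.Iic 2 ×ˢ U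
  have hW : W.Finite := (Set.finite_Iic 2).prod hU
  have hγW : ∀ j, ∀ x ∈ B j, γ x ∈ W := fun j x hx => ⟨by simp [γ], hBU j x hx⟩
  have hαW : ∀ j, ∀ x ∈ A j, α j x ∈ W := by
    intro j x hx
    by_cases h : x = c j
    · simp only [α, if_pos h]; exact ⟨by simp, hBU j _ (hdB j)⟩
    · simp only [α, if_neg h]; exact ⟨by simp, hAU j _ hx⟩
  have hβW : ∀ j, ∀ x ∈ A j, β j x ∈ W := by
    intro j x hx
    by_cases h : x = c j
    · simp only [β, if_pos h]; exact ⟨by simp, hBU j _ (heB j)⟩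
    · by_cases h' : x = c' j
      · simp only [β, if_neg h, if_pos h']; exact ⟨by simp, hAU j _ hx⟩
      · simp only [β, if_neg h, if_neg h']; exact ⟨by simp, hAU j _ hx⟩
  let T : Set (Fin 3 → ℕ × ℕ) :=
    (fun t j => γ (t j)) '' {t | t ∈ M ∧ ∀ j, t j ∈ B j} ∪
      ((fun t j => α j (t j)) '' {t | t ∈ M ∧ ∀ j, t j ∈ A j} ∪
        (fun t j => β j (t j)) '' {t | t ∈ M ∧ ∀ j, t j ∈ A j})
  have m1 : ∀ t ∈ M, ∀ s ∈ M, ∀ i, (∀ j, j ≠ i → γ (t j) = α j (s j)) →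
      (fun j => γ (t j)) = fun j => α j (s j) := by
    intro t ht s hs i h
    have e1 : s = c := hM.pl s hs c hc i fun j hj => (hα _ _ _ (h j hj).symm).1
    have e2 : t = d := hM.pl t ht d hd i fun j hj => (hα _ _ _ (h j hj).symm).2
    subst e1 e2
    funext j
    simp [α, γ]
  have m2 : ∀ t ∈ M, ∀ s ∈ M, ∀ i, (∀ j, j ≠ i → γ (t j) = β j (s j)) →
      (fun j => γ (t j)) = fun j => β j (s j) := by
    intro t ht s hs i h
    have e1 : s = c := hM.pl s hs c hc i fun j hj => (hβ _ _ _ (h j hj).symm).1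
    have e2 : t = e := hM.pl t ht e he i fun j hj => (hβ _ _ _ (h j hj).symm).2
    subst e1 e2
    funext j
    simp [β, γ]
  have m3 : ∀ t ∈ M, ∀ s ∈ M, ∀ i, (∀ j, j ≠ i → α j (t j) = β j (s j)) →
      (fun j => α j (t j)) = fun j => β j (s j) := by
    intro t ht s hs i h
    have e1 : s = c' := hM.pl s hs c' hc' i fun j hj => (hαβ _ _ _ (h j hj)).2
    have e2 : t = c' := hM.pl t ht c' hc' i fun j hj => (hαβ _ _ _ (h j hj)).1
    rw [e1, e2]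
    funext j
    exact hαβ' j
  have hT : PL T := by
    rintro _ (⟨t, ht, rfl⟩ | ⟨t, ht, rfl⟩ | ⟨t, ht, rfl⟩) _
      (⟨s, hs, rfl⟩ | ⟨s, hs, rfl⟩ | ⟨s, hs, rfl⟩) i h
    · rw [hM.pl t ht.1 s hs.1 i fun j hj => hγinj (h j hj)]
    · exact m1 t ht.1 s hs.1 i h
    · exact m2 t ht.1 s hs.1 i h
    · exact (m1 s hs.1 t ht.1 i fun j hj => (h j hj).symm).symm
    · rw [hM.pl t ht.1 s hs.1 i fun j hj => hαinj j (h j hj)]
    · exact m3 t ht.1 s hs.1 i h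
    · exact (m2 s hs.1 t ht.1 i fun j hj => (h j hj).symm).symm
    · exact (m3 s hs.1 t ht.1 i fun j hj => (h j hj).symm).symm
    · rw [hM.pl t ht.1 s hs.1 i fun j hj => hβinj j (h j hj)]
  obtain ⟨g, g1, g2, g3⟩ := hM.ep (ℕ × ℕ) W hW T hT (by
      rintro _ (⟨t, ht, rfl⟩ | ⟨t, ht, rfl⟩ | ⟨t, ht, rfl⟩) j
      · exact hγW j _ (ht.2 j)
      · exact hαW j _ (ht.2 j)
      · exact hβW j _ (ht.2 j)) (fun j z m => z = γ m ∧ m ∈ B j)
    (fun j z m h => by rw [h.1]; exact hγW j _ h.2)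
    (fun _ _ _ _ a b => hγinj (a.1.symm.trans b.1))
    (fun _ _ _ _ a b => a.1.trans b.1.symm) (by
      intro i u hu h
      have h1 : ∀ j, j ≠ i → u j ∈ B j := fun j hj => (h j hj).choose_spec.2
      have h2 : ∀ j, u j ∈ B j := fun j => by
        by_cases hj : j = i
        · rw [hj]; exact b3 i u hu h1
        · exact h1 j hj
      exact ⟨_, Or.inl ⟨u, ⟨hu, h2⟩, rfl⟩, fun j => ⟨rfl, h2 j⟩⟩)
  have hg : ∀ j, ∀ m ∈ B j, g j (γ m) = m := fun j m hm => g2 j _ m ⟨rfl, hm⟩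
  obtain ⟨f, f1, f2⟩ := ext_map hM hM A a1 a3 (fun j x => g j (α j x))
    (fun j x hx y hy h => hαinj j (g1 j (hαW j x hx) (hαW j y hy) h))
    (fun t ht h => g3 _ (Or.inr (Or.inl ⟨t, ⟨ht, h⟩, rfl⟩)))
  obtain ⟨f', f1', f2'⟩ := ext_map hM hM A a1 a3 (fun j x => g j (β j x))
    (fun j x hx y hy h => hβinj j (g1 j (hβW j x hx) (hβW j y hy) h))
    (fun t ht h => g3 _ (Or.inr (Or.inr ⟨t, ⟨ht, h⟩, rfl⟩)))
  refine ⟨f, f', fun j => ?_, fun j => ?_, fun j => ?_, f2, f2'⟩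
  · rw [f1 j _ (hcA j)]
    simp only [α, if_true]
    exact hg j _ (hdB j)
  · rw [f1' j _ (hcA j)]
    simp only [β, if_true]
    exact hg j _ (heB j)
  · rw [f1 j _ (hcA' j), f1' j _ (hcA' j), hαβ' j]

end Pool.Agent.H618Z.Latin
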