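import Mathlib

set_option autoImplicit false

namespace Pool.Agent.H618Z.LatinDefs

open Matrix

/-- `mul` makes `T` a quasigroup. -/
def IsQuasigroup {T : Type} (mul : T → T → T) : Prop :=
  ∀ a b, (∃! x, mul a x = b) ∧ ∃! y, mul y a = b

/-- The Latin square of `mul`: the triples `(x, y, x y)`. -/
def cells {T : Type} (mul : T → T → T) : Set (Fin 3 → T) := {t | t 2 = mul (t 0) (t 1)}

/-- Isotopy of two binary operations. -/
def Isotopic {T S : Type} (m : T → T → T) (n : S → S → S) : Prop :=
  ∃ α β γ : T ≃ S, ∀ x y, γ (m x y) = n (α x) (β y)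

/-- Apply the bijection `f i` to coordinate `i`, then permute the coordinates by `π`. -/
def paratopism {T : Type} (f : Fin 3 → Equiv.Perm T) (π : Equiv.Perm (Fin 3))
    (t : Fin 3 → T) : Fin 3 → T := fun i => f (π i) (t (π i))

/-- The paratopism given by `f` and `π` maps the Latin square onto itself. -/
def IsAutoparatopism {T : Type} (mul : T → T → T) (f : Fin 3 → Equiv.Perm T)
    (π : Equiv.Perm (Fin 3)) : Prop :=
  paratopism f π '' cells mul = cells mul

/-- The autoparatopism group is transitive on cells, and the only equivalence relations on the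
cells preserved by all autoparatopisms are equality and the one with a single class. -/
def PrimitiveOnCells {T : Type} (mul : T → T → T) : Prop :=
  (∀ c ∈ cells mul, ∀ d ∈ cells mul, ∃ f π, IsAutoparatopism mul f π ∧ paratopism f π c = d) ∧
  ∀ E : Setoid (cells mul),
    (∀ f π, IsAutoparatopism mul f π → ∀ c d c' d' : cells mul,
      paratopism f π c = c' → paratopism f π d = d' → E c d → E c' d') → E = ⊥ ∨ E = ⊤

/-- A Moufang loop: a quasigroup with identity satisfying `z (x (z y)) = ((z x) z) y`. -/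
def IsMoufangLoop {S : Type} (n : S → S → S) : Prop :=
  IsQuasigroup n ∧ (∃ e, ∀ x, n e x = x ∧ n x e = x) ∧
    ∀ x y z, n z (n x (n z y)) = n (n (n z x) z) y

/-- Zorn vector matrices: the split octonion algebra over `F`. -/
@[ext] structure Zorn (F : Type) where
  a : F
  u : Fin 3 → F
  v : Fin 3 → F
  b : F

variable {F : Type} [Field F]

def Zorn.mul (x y : Zorn F) : Zorn F :=
  ⟨x.a * y.a + x.u ⬝ᵥ y.v, x.a • y.u + y.b • x.u - crossProduct x.v y.v,
    y.a • x.v + x.b • y.v + crossProduct x.u y.u, x.v ⬝ᵥ y.u + x.b * y.b⟩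

def Zorn.neg (x : Zorn F) : Zorn F := ⟨-x.a, -x.u, -x.v, -x.b⟩

def Zorn.norm (x : Zorn F) : F := x.a * x.b - x.u ⬝ᵥ x.v

theorem Zorn.neg_neg (x : Zorn F) : x.neg.neg = x := by
  simp [Zorn.neg]

theorem cr0 (u v : Fin 3 → F) : crossProduct u v 0 = u 1 * v 2 - u 2 * v 1 := rfl
theorem cr1 (u v : Fin 3 → F) : crossProduct u v 1 = u 2 * v 0 - u 0 * v 2 := rfl
theorem cr2 (u v : Fin 3 → F) : crossProduct u v 2 = u 0 * v 1 - u 1 * v 0 := rfl

theorem Zorn.norm_mul (x y : Zorn F) : (x.mul y).norm = x.norm * y.norm := by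
  simp only [Zorn.mul, Zorn.norm, dotProduct, Fin.sum_univ_three, Pi.add_apply, Pi.sub_apply,
    Pi.smul_apply, smul_eq_mul, cr0, cr1, cr2]
  ring

theorem Zorn.neg_mul (x y : Zorn F) : x.neg.mul y = (x.mul y).neg := by
  simp only [Zorn.mul, Zorn.neg, map_neg, LinearMap.neg_apply, neg_dotProduct, neg_smul,
    smul_neg, Zorn.mk.injEq]
  refine ⟨by ring, by abel, by abel, by ring⟩

theorem Zorn.mul_neg (x y : Zorn F) : x.mul y.neg = (x.mul y).neg := by
  simp only [Zorn.mul, Zorn.neg, map_neg, dotProduct_neg, neg_smul, smul_neg, Zorn.mk.injEq]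
  refine ⟨by ring, by abel, by abel, by ring⟩

/-- Norm-one split octonions, identified up to sign. -/
def signSetoid (F : Type) [Field F] : Setoid {x : Zorn F // x.norm = 1} where
  r x y := x.1 = y.1 ∨ x.1 = y.1.neg
  iseqv := ⟨fun _ => Or.inl rfl, fun h => h.elim (fun h => Or.inl h.symm)
    (fun h => Or.inr (by rw [h, Zorn.neg_neg])), fun h h' => by
      rcases h with h | h <;> rcases h' with h' | h' <;> simp [h, h', Zorn.neg_neg]⟩

/-- The Paige loop of `F`: norm-one split octonions modulo `±1`. -/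
def Paige (F : Type) [Field F] : Type := Quotient (signSetoid F)

/-- Multiplication of the Paige loop. -/
def Paige.mul : Paige F → Paige F → Paige F :=
  Quotient.map₂ (fun x y => ⟨x.1.mul y.1, by rw [Zorn.norm_mul, x.2, y.2, mul_one]⟩) (by
    intro x x' h y y' h'
    change x.1.mul y.1 = x'.1.mul y'.1 ∨ x.1.mul y.1 = (x'.1.mul y'.1).neg
    rcases h with h | h <;> rcases h' with h' | h' <;>
      simp [h, h', Zorn.neg_mul, Zorn.mul_neg, Zorn.neg_neg])

end Pool.Agent.H618Z.LatinDefs
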