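import Pool.Agent.H618Z.LatinC
import Pool.Agent.H618Z.LatinDefs

set_option autoImplicit false

namespace Pool.Agent.H618Z.Latin

open Pool.Agent.H618Z.LatinDefs

/-- An isotopy invariant closure condition satisfied by left Bol loops. -/
def BolClosed {T : Type} (m : T → T → T) : Prop :=
  ∀ x y z a b a' b', m x a = m y b → m z a = m x b → m x a' = m y b' → m z a' = m x b'

theorem BolClosed.of_isotopic {T S : Type} {m : T → T → T} {n : S → S → S}
    (h : Isotopic m n) (hn : BolClosed n) : BolClosed m := by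
  obtain ⟨α, β, γ, h⟩ := h
  intro x y z a b a' b' h1 h2 h3
  apply γ.injective
  rw [h, h]
  refine hn (α x) (α y) (α z) (β a) (β b) (β a') (β b') ?_ ?_ ?_ <;> rw [← h, ← h] <;>
    congr 1

theorem bolClosed_of {S : Type} (n : S → S → S) (inv : S → S)
    (h1 : ∀ y b, n (inv y) (n y b) = b) (h2 : ∀ z w a, n z a = n w a → z = w)
    (h3 : ∀ x y, ∃ w, ∀ a, n x (n y (n x a)) = n w a) : BolClosed n := by
  intro x y z a b a' b' e1 e2 e3
  obtain ⟨w, hw⟩ := h3 x (inv y)
  have : z = w := h2 z w a (by rw [← hw, e1, h1, e2])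
  rw [this, ← hw, e3, h1]

theorem bolClosed_group (G : Type) [Group G] : BolClosed (fun x y : G => x * y) :=
  bolClosed_of _ (fun y => y⁻¹) (fun y b => by simp) (fun _ _ _ h => mul_right_cancel h)
    fun x y => ⟨x * y * x, fun a => by simp [mul_assoc]⟩

theorem bolClosed_moufang {S : Type} (n : S → S → S) (h : IsMoufangLoop n) : BolClosed n := by
  obtain ⟨hq, ⟨e, he⟩, hm⟩ := h
  have lc : ∀ x a b, n x a = n x b → a = b := fun x a b h =>
    (hq x (n x b)).1.unique h rfl
  have rc : ∀ z w a, n z a = n w a → z = w := fun z w a h =>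
    (hq a (n w a)).2.unique h rfl
  choose inv hinv using fun y => (hq y e).1.exists
  refine bolClosed_of n inv (fun y b => lc y _ _ ?_) rc fun x y => ⟨_, fun a => hm y a x⟩
  rw [hm, hinv, (he y).1]

section PaigeSec

variable {F : Type} [Field F]

def zconj (x : Zorn F) : Zorn F := ⟨x.b, -x.u, -x.v, x.a⟩

def zsmul (c : F) (x : Zorn F) : Zorn F := ⟨c * x.a, c • x.u, c • x.v, c * x.b⟩

theorem zsmul_one (x : Zorn F) : zsmul 1 x = x := by simp [zsmul]

omit [Field F] in
theorem zext {x y : Zorn F} (h1 : x.a = y.a) (h2 : x.u 0 = y.u 0) (h3 : x.u 1 = y.u 1)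
    (h4 : x.u 2 = y.u 2) (h5 : x.v 0 = y.v 0) (h6 : x.v 1 = y.v 1) (h7 : x.v 2 = y.v 2)
    (h8 : x.b = y.b) : x = y := by
  refine Zorn.ext h1 ?_ ?_ h8 <;> funext i <;> fin_cases i <;> assumption

theorem zconj_norm (x : Zorn F) : (zconj x).norm = x.norm := by
  simp [zconj, Zorn.norm, mul_comm]

theorem zconj_neg (x : Zorn F) : zconj x.neg = (zconj x).neg := rfl

theorem zleft (x y : Zorn F) : (zconj x).mul (x.mul y) = zsmul x.norm y := by
  apply zext <;>
  · simp only [zconj, zsmul, Zorn.mul, Zorn.norm, dotProduct, Fin.sum_univ_three, Pi.add_apply,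
      Pi.sub_apply, Pi.neg_apply, Pi.smul_apply, smul_eq_mul, cr0, cr1, cr2]
    ring

theorem zright (x y : Zorn F) : (y.mul x).mul (zconj x) = zsmul x.norm y := by
  apply zext <;>
  · simp only [zconj, zsmul, Zorn.mul, Zorn.norm, dotProduct, Fin.sum_univ_three, Pi.add_apply,
      Pi.sub_apply, Pi.neg_apply, Pi.smul_apply, smul_eq_mul, cr0, cr1, cr2]
    ring

theorem zmoufang (x y z : Zorn F) : z.mul (x.mul (z.mul y)) = ((z.mul x).mul z).mul y := by
  apply zext <;>
  · simp only [Zorn.mul, dotProduct, Fin.sum_univ_three, Pi.add_apply,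
      Pi.sub_apply, Pi.smul_apply, smul_eq_mul, cr0, cr1, cr2]
    ring

def pinv : Paige F → Paige F :=
  Quotient.map (fun x => ⟨zconj x.1, by rw [zconj_norm, x.2]⟩) (by
    intro x x' h
    change zconj x.1 = zconj x'.1 ∨ zconj x.1 = (zconj x'.1).neg
    rcases h with h | h
    · left; rw [h]
    · right; rw [h]; rfl)

theorem bolClosed_paige (F : Type) [Field F] : BolClosed (Paige.mul (F := F)) := by
  have hr : ∀ z a : Paige F, Paige.mul (Paige.mul z a) (pinv a) = z := by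
    intro z a
    induction z using Quotient.inductionOn with | h z => ?_
    induction a using Quotient.inductionOn with | h a => ?_
    refine Quotient.sound (Or.inl ?_)
    change (z.1.mul a.1).mul (zconj a.1) = z.1
    rw [zright, a.2, zsmul_one]
  refine bolClosed_of _ pinv ?_ (fun z w a h => by rw [← hr z a, h, hr]) fun x y =>
    ⟨Paige.mul (Paige.mul x y) x, fun a => ?_⟩
  · intro y b
    induction y using Quotient.inductionOn with | h y => ?_
    induction b using Quotient.inductionOn with | h b => ?_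
    refine Quotient.sound (Or.inl ?_)
    change (zconj y.1).mul (y.1.mul b.1) = b.1
    rw [zleft, y.2, zsmul_one]
  · induction x using Quotient.inductionOn with | h x => ?_
    induction y using Quotient.inductionOn with | h y => ?_
    induction a using Quotient.inductionOn with | h a => ?_
    exact Quotient.sound (Or.inl (zmoufang y.1 a.1 x.1))

end PaigeSec

variable {M : Set (Fin 3 → ℕ)}

theorem exists_mul (hM : Gen M) : ∃ m : ℕ → ℕ → ℕ, cells m = M := by
  have : ∀ x y : ℕ, ∃ t ∈ M, t 0 = x ∧ t 1 = y := fun x y => by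
    obtain ⟨t, ht, h⟩ := hM.tot 2 ![x, y, 0] fun _ _ => trivial
    exact ⟨t, ht, h 0 (by decide), h 1 (by decide)⟩
  choose t ht h0 h1 using this
  refine ⟨fun x y => t x y 2, Set.ext fun s => ⟨fun hs => ?_, fun hs => ?_⟩⟩
  · convert ht (s 0) (s 1) using 1
    funext j
    fin_cases j
    · exact (h0 _ _).symm
    · exact (h1 _ _).symm
    · exact hs
  · exact congrFun (hM.pl.eq2 hs (ht (s 0) (s 1)) (j := 0) (k := 1) (by decide) (h0 _ _).symm
      (h1 _ _).symm) 2

variable {m : ℕ → ℕ → ℕ}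

theorem mem_cells (x y z : ℕ) : ![x, y, z] ∈ cells m ↔ z = m x y := Iff.rfl

theorem quasi (hM : Gen (cells m)) : IsQuasigroup m := by
  intro a b
  constructor
  · obtain ⟨t, ht, h⟩ := hM.tot 1 ![a, 0, b] fun _ _ => trivial
    have h0 : t 0 = a := h 0 (by decide)
    have h2 : t 2 = b := h 2 (by decide)
    refine ⟨t 1, by rw [← h0, ← h2]; exact ht.symm, fun y hy => ?_⟩
    exact congrFun (hM.pl.eq2 ((mem_cells a y b).2 hy.symm) ht (j := 0) (k := 2) (by decide)
      h0.symm h2.symm) 1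
  · obtain ⟨t, ht, h⟩ := hM.tot 0 ![0, a, b] fun _ _ => trivial
    have h1 : t 1 = a := h 1 (by decide)
    have h2 : t 2 = b := h 2 (by decide)
    refine ⟨t 0, by rw [← h1, ← h2]; exact ht.symm, fun y hy => ?_⟩
    exact congrFun (hM.pl.eq2 ((mem_cells y a b).2 hy.symm) ht (j := 1) (k := 2) (by decide)
      h1.symm h2.symm) 0

theorem not_bol (hM : Gen (cells m)) : ¬ BolClosed m := by
  let T : Finset (Fin 3 → Fin 5) := {![0, 0, 0], ![1, 1, 0], ![0, 1, 1], ![2, 0, 1], ![0, 2, 2],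
    ![1, 3, 2], ![0, 3, 3], ![2, 2, 4]}
  have hT : ∀ t ∈ T, ∀ u ∈ T, ∀ i, (∀ j, j ≠ i → t j = u j) → t = u := by decide +kernel
  obtain ⟨f, f1, -, f3⟩ := hM.ep (Fin 5) Set.univ Set.finite_univ T hT (fun _ _ _ => trivial)
    (fun _ _ _ => False) (fun _ _ _ h => h.elim) (fun _ _ _ _ h => h.elim)
    (fun _ _ _ _ h => h.elim) (by
      intro i u _ h
      obtain ⟨j, _, _, hj, _⟩ := two_others i
      exact (h j hj).choose_spec.elim)
  have k : ∀ a b c : Fin 5, ![a, b, c] ∈ T → f 2 c = m (f 0 a) (f 1 b) := fun a b c h =>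
    f3 _ (Finset.mem_coe.2 h)
  intro hb
  have := hb (f 0 0) (f 0 1) (f 0 2) (f 1 0) (f 1 1) (f 1 2) (f 1 3)
    (by rw [← k 0 0 0 (by decide), ← k 1 1 0 (by decide)])
    (by rw [← k 2 0 1 (by decide), ← k 0 1 1 (by decide)])
    (by rw [← k 0 2 2 (by decide), ← k 1 3 2 (by decide)])
  rw [← k 2 2 4 (by decide), ← k 0 3 3 (by decide)] at this
  exact absurd (f1 2 trivial trivial this) (by decide)

theorem autopar_of (π : Equiv.Perm (Fin 3)) (f : Fin 3 → ℕ ≃ ℕ)
    (h : ∀ t, t ∈ conj π.symm (cells m) ↔ (fun j => f j (t j)) ∈ cells m) :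
    IsAutoparatopism m (fun j => f (π.symm j)) π ∧
      ∀ t, paratopism (fun j => f (π.symm j)) π t = fun j => f j (t (π j)) := by
  have e : ∀ t, paratopism (fun j => f (π.symm j)) π t = fun j => f j (t (π j)) := fun t => by
    funext j; simp [paratopism]
  refine ⟨Set.ext fun s => ⟨?_, fun hs => ?_⟩, e⟩
  · rintro ⟨t, ht, rfl⟩
    rw [e]
    exact (h fun j => t (π j)).1 (by simpa [conj] using ht)
  · refine ⟨fun j => (f (π.symm j)).symm (s (π.symm j)), ?_, ?_⟩
    · exact (h fun j => (f j).symm (s j)).2 (by simpa using hs)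
    · rw [e]; funext j; simp

theorem autopar_one (f : Fin 3 → ℕ ≃ ℕ)
    (h : ∀ t, t ∈ cells m ↔ (fun j => f j (t j)) ∈ cells m) :
    IsAutoparatopism m f 1 ∧ ∀ t, paratopism f 1 t = fun j => f j (t j) :=
  autopar_of 1 f h

theorem third_cell (hM : Gen (cells m)) (d e : Fin 3 → ℕ) :
    ∃ g ∈ cells m, (∀ j, d j ≠ g j) ∧ ∀ j, g j ≠ e j := by
  have hq := quasi hM
  obtain ⟨x, hx⟩ := Infinite.exists_notMem_finset ({d 0, e 0} : Finset ℕ)
  obtain ⟨y1, hy1, u1⟩ := (hq x (d 2)).1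
  obtain ⟨y2, hy2, u2⟩ := (hq x (e 2)).1
  obtain ⟨y, hy⟩ := Infinite.exists_notMem_finset ({d 1, e 1, y1, y2} : Finset ℕ)
  simp only [Finset.mem_insert, Finset.mem_singleton, not_or] at hx hy
  refine ⟨![x, y, m x y], rfl, fun j => ?_, fun j => ?_⟩
  · fin_cases j
    · exact fun h => hx.1 h.symm
    · exact fun h => hy.1 h.symm
    · exact fun h => hy.2.2.1 (u1 y h.symm)
  · fin_cases j
    · exact hx.2
    · exact hy.2.1
    · exact fun h => hy.2.2.2 (u2 y h)

theorem primitive (hM : Gen (cells m)) : PrimitiveOnCells m := by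
  constructor
  · intro c hc d hd
    obtain ⟨f, h1, h2⟩ := trans_cells hM hM hc hd
    obtain ⟨a, b⟩ := autopar_one f h2
    exact ⟨f, 1, a, by rw [b]; exact funext h1⟩
  intro E hE
  by_cases hb : E = ⊥
  · exact Or.inl hb
  right
  have h1 : ∃ c c' : cells m, E c c' ∧ c ≠ c' := by
    by_contra hcon
    push Not at hcon
    exact hb (le_bot_iff.1 fun c c' h => hcon c c' h)
  have h2 : ∃ c c' : cells m, E c c' ∧ ∀ j, c'.1 j ≠ c.1 j := by
    obtain ⟨c, c', hcc, hne⟩ := h1
    by_cases hd : ∀ j, c'.1 j ≠ c.1 j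
    · exact ⟨c, c', hcc, hd⟩
    push Not at hd
    obtain ⟨i, hi⟩ := hd
    have huniq : ∀ j, c'.1 j = c.1 j → j = i := fun j hj => by
      by_contra hji
      exact hne (Subtype.ext (hM.pl.eq2 c'.2 c.2 hji hj hi).symm)
    let π : Equiv.Perm (Fin 3) := Equiv.addRight 1
    have hπ : ∀ j, π j ≠ j := by decide
    obtain ⟨f, f1, f2, f3⟩ := gadget1 hM (hM.conj π.symm) (c := fun j => c.1 (π j))
      (c' := fun j => c'.1 (π j)) (d := c.1) (d' := c'.1) (by simp [conj]) c.2
    obtain ⟨a, b⟩ := autopar_of π f f3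
    have hmem : (fun j => f j (c'.1 (π j))) ∈ cells m := (f3 _).1 (by simp [conj])
    have := hE _ π a c c' c ⟨_, hmem⟩ (by rw [b]; exact funext f1) (b _) hcc
    refine ⟨c', ⟨_, hmem⟩, E.trans' (E.symm' hcc) this, fun j hj => ?_⟩
    obtain ⟨p, q⟩ := f2 j hj
    exact hπ j ((huniq _ p).trans (huniq _ q).symm)
  obtain ⟨c, c', hcc, hd⟩ := h2
  have h3 : ∀ d e : cells m, (∀ j, d.1 j ≠ e.1 j) → E d e := by
    intro d e hde
    obtain ⟨f, f', a1, a2, a3, a4, a5⟩ := gadget2 hM c.2 c'.2 d.2 e.2 hd hde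
    obtain ⟨a, b⟩ := autopar_one f a4
    obtain ⟨a', b'⟩ := autopar_one f' a5
    have hmem : (fun j => f j (c'.1 j)) ∈ cells m := (a4 _).1 c'.2
    have e1 := hE f 1 a c c' d ⟨_, hmem⟩ (by rw [b]; exact funext a1) (b _) hcc
    have e2 := hE f' 1 a' c c' e ⟨_, hmem⟩ (by rw [b']; exact funext a2)
      (by rw [b']; exact funext fun j => (a3 j).symm) hcc
    exact E.trans' e1 (E.symm' e2)
  refine top_le_iff.1 fun d e _ => ?_
  obtain ⟨g, hg, g1, g2⟩ := third_cell hM d.1 e.1
  exact E.trans' (h3 d ⟨g, hg⟩ g1) (h3 ⟨g, hg⟩ e g2)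

theorem main : ∃ m : ℕ → ℕ → ℕ, IsQuasigroup m ∧ PrimitiveOnCells m ∧ ¬ BolClosed m := by
  obtain ⟨M, hM⟩ := exists_gen
  obtain ⟨m, rfl⟩ := exists_mul hM
  exact ⟨m, quasi hM, primitive hM, not_bol hM⟩

end Pool.Agent.H618Z.Latin
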