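import Mathlib

set_option autoImplicit false

/-!
# Sums of squares of sparse trigonometric sums

A finite set of nonzero complex numbers carries many real valued functions that turn products
into sums; this lets one deform an identity between sparse exponential sums, and a rank argument
at a zero of the deformed right-hand side bounds the number of squares from below.
-/

namespace Pool.Agent.H618Z.PyFree

open Finset

/-- the relation vectors -/
def relSpan (N : ℕ) (T : Finset (Fin N × Fin N × Fin N)) : Submodule ℤ (Fin N → ℤ) :=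
  Submodule.span ℤ ((fun p : Fin N × Fin N × Fin N =>
    (Pi.single p.1 1 + Pi.single p.2.1 1 - Pi.single p.2.2 1 : Fin N → ℤ)) '' (T : Set _))

theorem free_fin (N M : ℕ) : ∃ C : ℕ, ∀ (v : Fin N → ℂ) (b : Fin M → Fin N), (∀ x, v x ≠ 0) →
    (∀ l : Fin M → ℤ, (∀ i, |l i| ≤ C) → ∏ i, v (b i) ^ l i = 1 → l = 0) →
    ∀ X : Fin M → ℝ, ∃ φ : Fin N → ℝ, (∀ x y z, v x * v y = v z → φ x + φ y = φ z) ∧
      ∀ i, φ (b i) = X i := by
  classical
  have h1 : ∀ q : Finset (Fin N × Fin N × Fin N) × (Fin M → Fin N), ∃ l : Fin M → ℤ,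
      (∃ l' : Fin M → ℤ, l' ≠ 0 ∧ ∑ i, l' i • (Pi.single (q.2 i) 1 : Fin N → ℤ) ∈ relSpan N q.1) →
      l ≠ 0 ∧ ∑ i, l i • (Pi.single (q.2 i) 1 : Fin N → ℤ) ∈ relSpan N q.1 := by
    intro q
    by_cases h : ∃ l' : Fin M → ℤ, l' ≠ 0 ∧
        ∑ i, l' i • (Pi.single (q.2 i) 1 : Fin N → ℤ) ∈ relSpan N q.1
    · obtain ⟨l, hl⟩ := h
      exact ⟨l, fun _ => hl⟩
    · exact ⟨0, fun h' => absurd h' h⟩
  choose lam hlam using h1
  refine ⟨univ.sup (fun q => univ.sup (fun i => (lam q i).natAbs)), ?_⟩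
  intro v b hv hind X
  set T : Finset (Fin N × Fin N × Fin N) := univ.filter (fun p => v p.1 * v p.2.1 = v p.2.2) with hT
  have hsingle : ∀ (x : Fin N) (k : ℤ), ∏ y, v y ^ (k • (Pi.single x 1 : Fin N → ℤ)) y = v x ^ k := by
    intro x k
    rw [prod_eq_single x]
    · simp
    · intro y _ hy
      simp [Pi.single_eq_of_ne hy]
    · simp
  have hadd : ∀ f g : Fin N → ℤ, ∏ y, v y ^ (f + g) y = (∏ y, v y ^ f y) * ∏ y, v y ^ g y := by
    intro f g
    rw [← prod_mul_distrib]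
    exact prod_congr rfl fun y _ => by rw [Pi.add_apply, zpow_add₀ (hv y)]
  have hkill : ∀ f ∈ relSpan N T, ∏ y, v y ^ f y = 1 := by
    intro f hf
    induction hf using Submodule.span_induction with
    | mem f hf =>
      obtain ⟨p, hp, rfl⟩ := hf
      simp only [hT, coe_filter, mem_univ, true_and, Set.mem_ofPred_eq] at hp
      have e1 := hsingle p.1 1
      have e2 := hsingle p.2.1 1
      have e3 := hsingle p.2.2 (-1)
      rw [one_smul] at e1 e2
      rw [neg_one_smul] at e3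
      simp only
      rw [sub_eq_add_neg, hadd, hadd, e1, e2, e3, zpow_one, zpow_one, hp, zpow_neg_one,
        mul_inv_cancel₀ (hv _)]
    | zero => simp
    | add f g _ _ hf hg => rw [hadd, hf, hg, one_mul]
    | smul k f _ hf =>
      have : ∏ y, v y ^ (k • f) y = (∏ y, v y ^ f y) ^ k := by
        rw [← prod_zpow]
        exact prod_congr rfl fun y _ => by rw [Pi.smul_apply, smul_eq_mul, mul_comm, zpow_mul]
      rw [this, hf, one_zpow]
  have hsum : ∀ l : Fin M → ℤ, ∏ y, v y ^ (∑ i, l i • (Pi.single (b i) 1 : Fin N → ℤ)) y =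
      ∏ i, v (b i) ^ l i := by
    intro l
    have : ∀ s : Finset (Fin M), ∏ y, v y ^ (∑ i ∈ s, l i • (Pi.single (b i) 1 : Fin N → ℤ)) y =
        ∏ i ∈ s, v (b i) ^ l i := by
      intro s
      induction s using Finset.induction_on with
      | empty => simp
      | insert i s hi ih => rw [sum_insert hi, prod_insert hi, hadd, ih, hsingle]
    exact this univ
  have hno : ∀ l : Fin M → ℤ, ∑ i, l i • (Pi.single (b i) 1 : Fin N → ℤ) ∈ relSpan N T → l = 0 := by
    intro l hl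
    by_contra hne
    obtain ⟨h2, h3⟩ := hlam (T, b) ⟨l, hne, hl⟩
    apply h2
    apply hind
    · intro i
      have h4 : (lam (T, b) i).natAbs ≤ univ.sup (fun q => univ.sup (fun i => (lam q i).natAbs)) :=
        le_trans (le_sup (f := fun i => (lam (T, b) i).natAbs) (mem_univ i))
          (le_sup (f := fun q => univ.sup (fun i => (lam q i).natAbs)) (mem_univ (T, b)))
      rw [Int.abs_eq_natAbs]
      exact_mod_cast h4
    · rw [← hsum]
      exact hkill _ h3
  let f : (Fin M → ℤ) →ₗ[ℤ] ((Fin N → ℤ) ⧸ relSpan N T) :=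
    (relSpan N T).mkQ ∘ₗ Fintype.linearCombination ℤ (fun i => (Pi.single (b i) 1 : Fin N → ℤ))
  have hf : Function.Injective f := by
    rw [injective_iff_map_eq_zero]
    intro l hl
    apply hno
    rw [← Submodule.Quotient.mk_eq_zero, ← Fintype.linearCombination_apply]
    exact hl
  obtain ⟨g, hg⟩ := (Module.Baer.of_divisible ℝ).extension_property f hf
    (Fintype.linearCombination ℤ X)
  refine ⟨fun x => g ((relSpan N T).mkQ (Pi.single x 1)), ?_, ?_⟩
  · intro x y z hxyz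
    have h5 : (relSpan N T).mkQ (Pi.single x 1 + Pi.single y 1 - Pi.single z 1) = 0 := by
      rw [Submodule.mkQ_apply, Submodule.Quotient.mk_eq_zero]
      exact Submodule.subset_span ⟨(x, y, z), by simpa [hT] using hxyz, rfl⟩
    have h6 := congrArg g h5
    rw [map_sub, map_add, map_sub, map_add, map_zero] at h6
    simp only
    linarith
  · intro i
    have := LinearMap.congr_fun hg (Pi.single i 1)
    simpa [f, Fintype.linearCombination_apply_single] using this

theorem free_set (N M : ℕ) : ∃ C : ℕ, ∀ (B : Finset ℂ) (β : Fin M → ℂ), B.card ≤ N → 1 ∈ B →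
    (∀ g ∈ B, g ≠ 0) → (∀ i, β i ∈ B) →
    (∀ l : Fin M → ℤ, (∀ i, |l i| ≤ C) → ∏ i, β i ^ l i = 1 → l = 0) →
    ∀ X : Fin M → ℝ, ∃ ψ : ℂ → ℝ, (∀ g ∈ B, ∀ h ∈ B, g * h ∈ B → ψ (g * h) = ψ g + ψ h) ∧
      ∀ i, ψ (β i) = X i := by
  classical
  obtain ⟨C, hC⟩ := free_fin N M
  refine ⟨C, fun B β hB h1 h0 hβ hind X => ?_⟩
  have hN : 0 < N := lt_of_lt_of_le (card_pos.mpr ⟨1, h1⟩) hB
  obtain ⟨v, hv⟩ : ∃ v : Fin N → B, Function.Surjective v := by
    rw [Function.exists_surjective_iff]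
    refine ⟨⟨fun _ => ⟨1, h1⟩⟩, ?_⟩
    rw [Function.Embedding.nonempty_iff_card_le]
    simpa using hB
  choose w hw using hv
  obtain ⟨φ, h2, h3⟩ := hC (fun x => (v x : ℂ)) (fun i => w ⟨β i, hβ i⟩) (fun x => h0 _ (v x).2)
    (by simpa [hw] using hind) X
  refine ⟨fun g => if h : g ∈ B then φ (w ⟨g, h⟩) else 0, ?_, ?_⟩
  · intro g hg h hh hgh
    simp only [dif_pos hg, dif_pos hh, dif_pos hgh]
    exact (h2 _ _ _ (by simp [hw])).symm
  · intro i
    simp only [dif_pos (hβ i)]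
    exact h3 i

theorem vand (B : Finset ℂ) (K : ℕ) (hB : B.card ≤ K) (F : ℂ → ℂ) :
    ∃ a : ℕ → ℂ, ∀ z ∈ B, F z = ∑ u ∈ range K, a u * z ^ u := by
  classical
  refine ⟨fun u => (Lagrange.interpolate B id F).coeff u, fun z hz => ?_⟩
  have h1 := Lagrange.eval_interpolate_at_node (s := B) (v := id) F (Set.injOn_id _) hz
  have h2 := Lagrange.degree_interpolate_lt (s := B) (v := id) F (Set.injOn_id _)
  have hK : 0 < K := lt_of_lt_of_le (card_pos.mpr ⟨z, hz⟩) hB
  have h3 : (Lagrange.interpolate B id F).natDegree < K := by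
    by_cases h : Lagrange.interpolate B id F = 0
    · rw [h]
      simpa using hK
    · exact lt_of_lt_of_le ((Polynomial.natDegree_lt_iff_degree_lt h).mpr h2) hB
  rw [← h1, Polynomial.eval_eq_sum_range' h3]
  rfl

open Pointwise in
theorem key (m N0 : ℕ) : ∃ C K : ℕ, ∀ (ι : Type) (s : Fin m → Finset ι) (c : Fin m → ι → ℂ)
    (z : ι → ℂ) (w γ : Fin (m + 1) → ℂ), (∀ j, (s j).card ≤ N0) → (∀ x, ‖z x‖ = 1) →
    (∀ i, ‖w i‖ = 1) → (∀ i, ‖γ i‖ = 1) →
    (∀ l : Fin (m + 1) → ℤ, (∀ i, |l i| ≤ C) → ∏ i, (γ i ^ 2) ^ l i = 1 → l = 0) →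
    (∀ u < K, ∀ j, (starRingEnd ℂ) (∑ x ∈ s j, c j x * z x ^ u) = ∑ x ∈ s j, c j x * z x ^ u) →
    (∀ u < K, ∑ j, (∑ x ∈ s j, c j x * z x ^ u) ^ 2 =
      ∑ i, (w i * γ i ^ u + (w i * γ i ^ u)⁻¹) ^ 2) → False := by
  classical
  obtain ⟨C, hC⟩ := free_set (1 + m * N0 + m * N0 + (m * N0) * (m * N0) + (m + 1) + (m + 1)) (m + 1)
  refine ⟨C, 1 + m * N0 + m * N0 + (m * N0) * (m * N0) + (m + 1) + (m + 1), ?_⟩
  intro ι s c z w γ hs hz hw hγ hind hreal hsq
  set K := 1 + m * N0 + m * N0 + (m * N0) * (m * N0) + (m + 1) + (m + 1) with hK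
  set A : Finset ℂ := univ.biUnion (fun j => (s j).image z) with hA
  have hAc : A.card ≤ m * N0 := by
    have := card_biUnion_le_card_mul univ (fun j => (s j).image z) N0
      (fun j _ => card_image_le.trans (hs j))
    simpa using this
  set β : Fin (m + 1) → ℂ := fun i => γ i ^ 2 with hβ
  set B : Finset ℂ := {1} ∪ A ∪ A.image (fun x => x⁻¹) ∪ (A ×ˢ A).image (fun p => p.1 * p.2) ∪
    univ.image β ∪ univ.image (fun i => (β i)⁻¹) with hB
  have hBc : B.card ≤ K := by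
    have h1 : (A.image (fun x => x⁻¹)).card ≤ m * N0 := card_image_le.trans hAc
    have h2 : ((A ×ˢ A).image (fun p => p.1 * p.2)).card ≤ (m * N0) * (m * N0) := by
      refine card_image_le.trans ?_
      rw [card_product]
      exact Nat.mul_le_mul hAc hAc
    have h3 : (univ.image β).card ≤ m + 1 := card_image_le.trans (by simp)
    have h4 : (univ.image (fun i => (β i)⁻¹)).card ≤ m + 1 := card_image_le.trans (by simp)
    refine (card_union_le _ _).trans (Nat.add_le_add ?_ h4)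
    refine (card_union_le _ _).trans (Nat.add_le_add ?_ h3)
    refine (card_union_le _ _).trans (Nat.add_le_add ?_ h2)
    refine (card_union_le _ _).trans (Nat.add_le_add ?_ h1)
    refine (card_union_le _ _).trans (Nat.add_le_add ?_ hAc)
    simp
  have hzA : ∀ j, ∀ x ∈ s j, z x ∈ A := fun j x hx =>
    mem_biUnion.mpr ⟨j, mem_univ j, mem_image_of_mem z hx⟩
  have hB1 : (1 : ℂ) ∈ B := by simp [hB]
  have hBz : ∀ j, ∀ x ∈ s j, z x ∈ B := fun j x hx => by
    simp only [hB, mem_union]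
    exact Or.inl (Or.inl (Or.inl (Or.inl (Or.inr (hzA j x hx)))))
  have hBzi : ∀ j, ∀ x ∈ s j, (z x)⁻¹ ∈ B := fun j x hx => by
    simp only [hB, mem_union]
    exact Or.inl (Or.inl (Or.inl (Or.inr (mem_image_of_mem _ (hzA j x hx)))))
  have hBzz : ∀ j, ∀ x ∈ s j, ∀ y ∈ s j, z x * z y ∈ B := fun j x hx y hy => by
    simp only [hB, mem_union]
    exact Or.inl (Or.inl (Or.inr (mem_image.mpr
      ⟨(z x, z y), mem_product.mpr ⟨hzA j x hx, hzA j y hy⟩, rfl⟩)))
  have hBβ : ∀ i, β i ∈ B := fun i => by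
    simp only [hB, mem_union]
    exact Or.inl (Or.inr (mem_image_of_mem _ (mem_univ i)))
  have hBβi : ∀ i, (β i)⁻¹ ∈ B := fun i => by
    simp only [hB, mem_union]
    exact Or.inr (mem_image_of_mem (fun i => (β i)⁻¹) (mem_univ i))
  have hne : ∀ a : ℂ, ‖a‖ = 1 → a ≠ 0 := fun a ha h => by simp [h] at ha
  have hz0 : ∀ x, z x ≠ 0 := fun x => hne _ (hz x)
  have hw0 : ∀ i, w i ≠ 0 := fun i => hne _ (hw i)
  have hγ0 : ∀ i, γ i ≠ 0 := fun i => hne _ (hγ i)
  have hβ0 : ∀ i, β i ≠ 0 := fun i => pow_ne_zero _ (hγ0 i)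
  have hA0 : ∀ g ∈ A, g ≠ 0 := by
    intro g hg
    obtain ⟨j, _, hj⟩ := mem_biUnion.mp hg
    obtain ⟨x, _, rfl⟩ := mem_image.mp hj
    exact hz0 x
  have hB0 : ∀ g ∈ B, g ≠ 0 := by
    intro g hg
    simp only [hB, mem_union, mem_singleton, mem_image, mem_univ, true_and, mem_product] at hg
    rcases hg with ((((rfl | hg) | ⟨a, ha, rfl⟩) | ⟨p, hp, rfl⟩) | ⟨i, rfl⟩) | ⟨i, rfl⟩
    · exact one_ne_zero
    · exact hA0 g hg
    · exact inv_ne_zero (hA0 a ha)
    · exact mul_ne_zero (hA0 _ hp.1) (hA0 _ hp.2)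
    · exact hβ0 i
    · exact inv_ne_zero (hβ0 i)
  have hfree := hC B β hBc hB1 hB0 hBβ hind
  -- the identities tested against arbitrary functions
  have hreal' : ∀ j, ∀ F : ℂ → ℂ, ∑ x ∈ s j, c j x * F (z x) =
      ∑ x ∈ s j, (starRingEnd ℂ) (c j x) * F (z x)⁻¹ := by
    intro j F
    obtain ⟨a, ha⟩ := vand B K hBc F
    have e1 : ∑ x ∈ s j, c j x * F (z x) = ∑ u ∈ range K, a u * ∑ x ∈ s j, c j x * z x ^ u := by
      simp only [mul_sum]
      rw [sum_comm]
      refine sum_congr rfl fun x hx => ?_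
      rw [ha _ (hBz j x hx), mul_sum]
      exact sum_congr rfl fun u _ => by ring
    have e2 : ∑ x ∈ s j, (starRingEnd ℂ) (c j x) * F (z x)⁻¹ =
        ∑ u ∈ range K, a u * (starRingEnd ℂ) (∑ x ∈ s j, c j x * z x ^ u) := by
      simp only [map_sum, mul_sum]
      rw [sum_comm]
      refine sum_congr rfl fun x hx => ?_
      rw [ha _ (hBzi j x hx), mul_sum]
      refine sum_congr rfl fun u _ => ?_
      rw [map_mul, map_pow, ← Complex.inv_eq_conj (hz x)]
      ring
    rw [e1, e2]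
    exact sum_congr rfl fun u hu => by rw [hreal u (mem_range.mp hu) j]
  have hsq' : ∀ F : ℂ → ℂ, ∑ j, ∑ x ∈ s j, ∑ y ∈ s j, c j x * c j y * F (z x * z y) =
      ∑ i, (2 * F 1 + w i ^ 2 * F (β i) + (w i ^ 2)⁻¹ * F (β i)⁻¹) := by
    intro F
    obtain ⟨a, ha⟩ := vand B K hBc F
    have e1 : ∑ j, ∑ x ∈ s j, ∑ y ∈ s j, c j x * c j y * F (z x * z y) =
        ∑ u ∈ range K, a u * ∑ j, (∑ x ∈ s j, c j x * z x ^ u) ^ 2 := by
      simp only [mul_sum]
      rw [sum_comm (s := range K)]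
      refine sum_congr rfl fun j _ => ?_
      simp only [sq, sum_mul_sum]
      simp only [mul_sum]
      rw [sum_comm (s := range K)]
      refine sum_congr rfl fun x hx => ?_
      rw [sum_comm (s := range K)]
      refine sum_congr rfl fun y hy => ?_
      rw [ha _ (hBzz j x hx y hy), mul_sum]
      exact sum_congr rfl fun u _ => by ring
    have e2 : ∑ i, (2 * F 1 + w i ^ 2 * F (β i) + (w i ^ 2)⁻¹ * F (β i)⁻¹) =
        ∑ u ∈ range K, a u * ∑ i, (w i * γ i ^ u + (w i * γ i ^ u)⁻¹) ^ 2 := by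
      simp only [mul_sum]
      rw [sum_comm (s := range K)]
      refine sum_congr rfl fun i _ => ?_
      rw [ha _ hB1, ha _ (hBβ i), ha _ (hBβi i), mul_sum, mul_sum, mul_sum, ← sum_add_distrib,
        ← sum_add_distrib]
      refine sum_congr rfl fun u _ => ?_
      have h1 := hw0 i
      have h2 := hγ0 i
      simp only [hβ, inv_pow, one_pow]
      field_simp
      ring
    rw [e1, e2]
    exact sum_congr rfl fun u hu => by rw [hsq u (mem_range.mp hu)]
  -- additive functions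
  have hadd1 : ∀ ψ : ℂ → ℝ, (∀ g ∈ B, ∀ h ∈ B, g * h ∈ B → ψ (g * h) = ψ g + ψ h) → ψ 1 = 0 := by
    intro ψ hψ
    have := hψ 1 hB1 1 hB1 (by simpa using hB1)
    rw [mul_one] at this
    linarith
  have haddi : ∀ ψ : ℂ → ℝ, (∀ g ∈ B, ∀ h ∈ B, g * h ∈ B → ψ (g * h) = ψ g + ψ h) →
      ∀ g ∈ B, g⁻¹ ∈ B → ψ g⁻¹ = - ψ g := by
    intro ψ hψ g hg hgi
    have := hψ g hg g⁻¹ hgi (by rw [mul_inv_cancel₀ (hB0 g hg)]; exact hB1)
    rw [mul_inv_cancel₀ (hB0 g hg), hadd1 ψ hψ] at this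
    linarith
  obtain ⟨ψ, hψ, hψβ⟩ := hfree (fun i => Complex.arg (-(w i ^ 2)⁻¹))
  set e : ℂ → ℂ := fun g => Complex.exp (ψ g * Complex.I) with he
  have he1 : e 1 = 1 := by simp [he, hadd1 ψ hψ]
  have heβ : ∀ i, e (β i) = -(w i ^ 2)⁻¹ := by
    intro i
    have h1 := Complex.norm_mul_exp_arg_mul_I (-(w i ^ 2)⁻¹)
    have h2 : ‖-(w i ^ 2)⁻¹‖ = 1 := by simp [hw i]
    rw [h2, Complex.ofReal_one, one_mul] at h1
    simp only [he, hψβ]
    exact h1
  have hei : ∀ g ∈ B, g⁻¹ ∈ B → e g⁻¹ = (e g)⁻¹ := by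
    intro g hg hgi
    simp only [he, haddi ψ hψ g hg hgi]
    rw [← Complex.exp_neg]
    congr 1
    push_cast
    ring
  have hec : ∀ g, (starRingEnd ℂ) (e g) = (e g)⁻¹ := by
    intro g
    rw [← Complex.inv_eq_conj]
    simp [he, Complex.norm_exp_ofReal_mul_I]
  have hem : ∀ g ∈ B, ∀ h ∈ B, g * h ∈ B → e (g * h) = e g * e h := by
    intro g hg h hh hgh
    simp only [he, hψ g hg h hh hgh]
    rw [← Complex.exp_add]
    congr 1
    push_cast
    ring
  -- the deformed sums vanish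
  have hT1 : ∀ j, (starRingEnd ℂ) (∑ x ∈ s j, c j x * e (z x)) = ∑ x ∈ s j, c j x * e (z x) := by
    intro j
    conv_rhs => rw [hreal' j e]
    rw [map_sum]
    refine sum_congr rfl fun x hx => ?_
    rw [map_mul, hec, hei _ (hBz j x hx) (hBzi j x hx)]
  have hT2 : ∑ j, (∑ x ∈ s j, c j x * e (z x)) ^ 2 = 0 := by
    have h1 := hsq' e
    rw [sum_eq_zero (s := univ) (f := fun i => 2 * e 1 + w i ^ 2 * e (β i) + (w i ^ 2)⁻¹ * e (β i)⁻¹)]
      at h1
    · rw [← h1]
      refine sum_congr rfl fun j _ => ?_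
      rw [sq, sum_mul_sum]
      refine sum_congr rfl fun x hx => sum_congr rfl fun y hy => ?_
      rw [hem _ (hBz j x hx) _ (hBz j y hy) (hBzz j x hx y hy)]
      ring
    · intro i _
      have := hw0 i
      rw [hei _ (hBβ i) (hBβi i), heβ, he1]
      field_simp
      ring
  have hT : ∀ j, ∑ x ∈ s j, c j x * e (z x) = 0 := by
    have h1 : ∀ j, ∑ x ∈ s j, c j x * e (z x) = ((∑ x ∈ s j, c j x * e (z x)).re : ℂ) :=
      fun j => (Complex.conj_eq_iff_re.mp (hT1 j)).symm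
    have h2 : ∑ j, (∑ x ∈ s j, c j x * e (z x)).re ^ 2 = 0 := by
      have : ((∑ j, (∑ x ∈ s j, c j x * e (z x)).re ^ 2 : ℝ) : ℂ) = 0 := by
        rw [← hT2]
        push_cast
        exact sum_congr rfl fun j _ => by rw [← h1 j]
      exact_mod_cast this
    rw [sum_eq_zero_iff_of_nonneg (fun j _ => sq_nonneg _)] at h2
    intro j
    rw [h1 j, pow_eq_zero_iff (two_ne_zero) |>.mp (h2 j (mem_univ j))]
    simp
  have hrank : ∀ η : ℂ → ℝ, (∀ g ∈ B, ∀ h ∈ B, g * h ∈ B → η (g * h) = η g + η h) →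
      (∀ j, (∑ x ∈ s j, c j x * e (z x) * η (z x)).im = 0) → ∀ i, η (β i) = 0 := by
    intro η hη him
    have h1 : ∀ j, ∑ x ∈ s j, c j x * e (z x) * η (z x) = 0 := by
      intro j
      have h2 := hreal' j (fun g => e g * η g)
      have h3 : (starRingEnd ℂ) (∑ x ∈ s j, c j x * e (z x) * η (z x)) =
          - ∑ x ∈ s j, c j x * e (z x) * η (z x) := by
        simp only [mul_assoc]
        conv_rhs => rw [h2]
        rw [map_sum, ← sum_neg_distrib]
        refine sum_congr rfl fun x hx => ?_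
        rw [map_mul, map_mul, hec, hei _ (hBz j x hx) (hBzi j x hx),
          haddi η hη _ (hBz j x hx) (hBzi j x hx), Complex.conj_ofReal]
        push_cast
        ring
      have h4 := congrArg Complex.re h3
      rw [Complex.conj_re, Complex.neg_re] at h4
      apply Complex.ext
      · rw [Complex.zero_re]
        linarith
      · rw [him j, Complex.zero_im]
    have h2 := hsq' (fun g => e g * (η g : ℂ) ^ 2)
    have h3 : ∑ j, ∑ x ∈ s j, ∑ y ∈ s j, c j x * c j y * (e (z x * z y) * (η (z x * z y) : ℂ) ^ 2) =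
        0 := by
      refine sum_eq_zero fun j _ => ?_
      have h4 : ∑ x ∈ s j, ∑ y ∈ s j, c j x * c j y * (e (z x * z y) * (η (z x * z y) : ℂ) ^ 2) =
          (∑ x ∈ s j, c j x * e (z x) * (η (z x) : ℂ) ^ 2) * (∑ x ∈ s j, c j x * e (z x)) +
          (∑ x ∈ s j, c j x * e (z x)) * (∑ x ∈ s j, c j x * e (z x) * (η (z x) : ℂ) ^ 2) +
          2 * ((∑ x ∈ s j, c j x * e (z x) * η (z x)) * (∑ x ∈ s j, c j x * e (z x) * η (z x))) := by
        simp only [sum_mul_sum]
        simp only [mul_sum, ← sum_add_distrib]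
        refine sum_congr rfl fun x hx => sum_congr rfl fun y hy => ?_
        rw [hem _ (hBz j x hx) _ (hBz j y hy) (hBzz j x hx y hy),
          hη _ (hBz j x hx) _ (hBz j y hy) (hBzz j x hx y hy)]
        push_cast
        ring
      rw [h4, hT j, h1 j]
      ring
    rw [h3] at h2
    have h5 : ∑ i, (2 * (e 1 * (η 1 : ℂ) ^ 2) + w i ^ 2 * (e (β i) * (η (β i) : ℂ) ^ 2) +
        (w i ^ 2)⁻¹ * (e (β i)⁻¹ * (η (β i)⁻¹ : ℂ) ^ 2)) = ((-2 * ∑ i, η (β i) ^ 2 : ℝ) : ℂ) := by
      push_cast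
      rw [mul_sum]
      refine sum_congr rfl fun i _ => ?_
      have := hw0 i
      rw [hadd1 η hη, hei _ (hBβ i) (hBβi i), heβ, haddi η hη _ (hBβ i) (hBβi i)]
      push_cast
      field_simp
      ring
    rw [h5] at h2
    have h6 : ∑ i, η (β i) ^ 2 = 0 := by
      have : (-2 * ∑ i, η (β i) ^ 2 : ℝ) = 0 := by exact_mod_cast h2.symm
      linarith
    rw [sum_eq_zero_iff_of_nonneg (fun j _ => sq_nonneg _)] at h6
    intro i
    exact (pow_eq_zero_iff two_ne_zero).mp (h6 i (mem_univ i))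
  choose η hη hηβ using fun k : Fin (m + 1) => hfree (Pi.single k 1)
  have hdep : ¬ LinearIndependent ℝ (fun k : Fin (m + 1) =>
      (fun j => (∑ x ∈ s j, c j x * e (z x) * η k (z x)).im : Fin m → ℝ)) := by
    intro h
    have := h.fintype_card_le_finrank
    simp at this
  rw [Fintype.not_linearIndependent_iff] at hdep
  obtain ⟨a, ha, k, hk⟩ := hdep
  apply hk
  have := hrank (fun g => ∑ k, a k * η k g) (by
    intro g hg h hh hgh
    rw [← sum_add_distrib]
    exact sum_congr rfl fun k _ => by rw [hη k g hg h hh hgh, mul_add]) (by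
    intro j
    have h1 := congrFun ha j
    simp only [Finset.sum_apply, Pi.smul_apply, smul_eq_mul, Pi.zero_apply] at h1
    rw [← h1]
    have h2 : ∑ x ∈ s j, c j x * e (z x) * ((∑ k, a k * η k (z x) : ℝ) : ℂ) =
        ∑ k, (a k : ℂ) * ∑ x ∈ s j, c j x * e (z x) * η k (z x) := by
      push_cast
      simp only [mul_sum]
      rw [sum_comm]
      exact sum_congr rfl fun k _ => sum_congr rfl fun x _ => by ring
    rw [h2, Complex.im_sum]
    exact sum_congr rfl fun k _ => by rw [Complex.im_ofReal_mul]) k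
  simpa [hηβ, Pi.single_apply] using this

end Pool.Agent.H618Z.PyFree
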