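import Mathlib

set_option autoImplicit false

/-!
# Cyclotomic integers of bounded mean square are sparse in the roots of unity of prime power order
-/

namespace Pool.Agent.H618Z.PySparse

open Finset

theorem card_le_sum {κ : Type*} [Fintype κ] (z : κ → ℝ) (hz : ∀ i, 0 < z i) (h : 1 ≤ ∏ i, z i) :
    (Fintype.card κ : ℝ) ≤ ∑ i, z i := by
  have h1 : 0 ≤ ∑ i, Real.log (z i) := by
    rw [← Real.log_prod (fun i _ => (hz i).ne')]
    exact Real.log_nonneg h
  have h2 : ∑ i, Real.log (z i) ≤ ∑ i, (z i - 1) :=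
    sum_le_sum fun i _ => Real.log_le_sub_one_of_pos (hz i)
  rw [sum_sub_distrib] at h2
  simp only [sum_const, card_univ, nsmul_eq_mul, mul_one] at h2
  linarith

theorem mean_ge {L : Type} [Field L] [NumberField L] [IsGalois ℚ L] (ι : L →+* ℂ) (x : L)
    (hx : IsIntegral ℤ x) (h0 : x ≠ 0) :
    (Fintype.card Gal(L/ℚ) : ℝ) ≤ ∑ σ : Gal(L/ℚ), ‖ι (σ x)‖ ^ 2 := by
  refine card_le_sum _ (fun σ => ?_) ?_
  · have : ι (σ x) ≠ 0 := by simpa using h0
    positivity
  · have h1 := Algebra.norm_eq_prod_automorphisms ℚ x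
    have h2 : IsIntegral ℤ (Algebra.norm ℚ x) := Algebra.isIntegral_norm ℚ hx
    obtain ⟨k, hk⟩ := IsIntegrallyClosed.isIntegral_iff.mp h2
    have h3 : Algebra.norm ℚ x ≠ 0 := Algebra.norm_ne_zero_iff.mpr h0
    have h4 : k ≠ 0 := by
      rintro rfl
      exact h3 (by simpa using hk.symm)
    have h5 : ∏ σ : Gal(L/ℚ), ι (σ x) = (k : ℂ) := by
      rw [← map_prod, ← h1, ← hk]
      simp
    rw [prod_pow, ← norm_prod, h5]
    have h6 : (1 : ℝ) ≤ ‖(k : ℂ)‖ := by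
      rw [Complex.norm_intCast]
      exact_mod_cast Int.one_le_abs h4
    nlinarith

theorem parseval (θ : ℂ) (N : ℕ) (hN : 0 < N) (hθ : IsPrimitiveRoot θ N) (h : ℕ → ℂ) :
    ∑ u ∈ range N, ‖∑ b ∈ range N, h b * θ ^ (b * u)‖ ^ 2 = N * ∑ b ∈ range N, ‖h b‖ ^ 2 := by
  have hn : ‖θ‖ = 1 := hθ.norm'_eq_one hN.ne'
  have h0 : θ ≠ 0 := hθ.ne_zero hN.ne'
  have hc : (starRingEnd ℂ) θ = θ⁻¹ := (Complex.inv_eq_conj hn).symm
  have horth : ∀ b ∈ range N, ∀ b' ∈ range N,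
      ∑ u ∈ range N, θ ^ (b * u) * (θ ^ (b' * u))⁻¹ = if b = b' then (N : ℂ) else 0 := by
    intro b hb b' hb'
    have e : ∀ u, θ ^ (b * u) * (θ ^ (b' * u))⁻¹ = (θ ^ b * (θ ^ b')⁻¹) ^ u := by
      intro u
      rw [mul_pow, inv_pow, ← pow_mul, ← pow_mul]
    simp only [e]
    split_ifs with hbb
    · rw [hbb, mul_inv_cancel₀ (pow_ne_zero _ h0)]
      simp
    · have h1 : θ ^ b * (θ ^ b')⁻¹ ≠ 1 := by
        intro h1
        apply hbb
        rw [mul_inv_eq_one₀ (pow_ne_zero _ h0)] at h1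
        exact hθ.pow_inj (mem_range.mp hb) (mem_range.mp hb') h1
      rw [geom_sum_eq h1, mul_pow, inv_pow, ← pow_mul, ← pow_mul, mul_comm b, mul_comm b', pow_mul,
        pow_mul, hθ.pow_eq_one]
      simp
  have key : ((∑ u ∈ range N, ‖∑ b ∈ range N, h b * θ ^ (b * u)‖ ^ 2 : ℝ) : ℂ) =
      ((N * ∑ b ∈ range N, ‖h b‖ ^ 2 : ℝ) : ℂ) := by
    push_cast
    simp only [← Complex.mul_conj', map_sum, map_mul, map_pow, hc, sum_mul_sum, inv_pow]
    rw [sum_comm, mul_sum]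
    refine sum_congr rfl fun b hb => ?_
    rw [sum_comm]
    have e : ∀ b' ∈ range N, ∑ u ∈ range N,
        h b * θ ^ (b * u) * ((starRingEnd ℂ) (h b') * (θ ^ (b' * u))⁻¹) =
        if b = b' then (N : ℂ) * (h b * (starRingEnd ℂ) (h b')) else 0 := by
      intro b' hb'
      have := horth b hb b' hb'
      calc _ = (h b * (starRingEnd ℂ) (h b')) *
            ∑ u ∈ range N, θ ^ (b * u) * (θ ^ (b' * u))⁻¹ := by
            rw [mul_sum]
            exact sum_congr rfl fun u _ => by ring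
        _ = _ := by
            rw [this]
            split_ifs <;> ring
    rw [sum_congr rfl e, sum_ite_eq, if_pos hb]
  exact_mod_cast key

theorem variance (p : ℕ) (f : ℕ → ℂ) :
    p * ∑ k ∈ range p, ‖f k‖ ^ 2 - ‖∑ k ∈ range p, f k‖ ^ 2 =
      (∑ k ∈ range p, ∑ k' ∈ range p, ‖f k - f k'‖ ^ 2) / 2 := by
  have key : ((p * ∑ k ∈ range p, ‖f k‖ ^ 2 - ‖∑ k ∈ range p, f k‖ ^ 2 : ℝ) : ℂ) =
      (((∑ k ∈ range p, ∑ k' ∈ range p, ‖f k - f k'‖ ^ 2) / 2 : ℝ) : ℂ) := by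
    push_cast
    simp only [← Complex.mul_conj', map_sum, map_sub]
    have e : ∀ k k', (f k - f k') * ((starRingEnd ℂ) (f k) - (starRingEnd ℂ) (f k')) =
        f k * (starRingEnd ℂ) (f k) + f k' * (starRingEnd ℂ) (f k') -
          f k * (starRingEnd ℂ) (f k') - (starRingEnd ℂ) (f k) * f k' := fun k k' => by ring
    simp only [e, sum_sub_distrib, sum_add_distrib, sum_const, card_range, nsmul_eq_mul,
      ← mul_sum, ← sum_mul]
    ring
  exact_mod_cast key

theorem two_level (η : ℂ) (p r : ℕ) (hp : 0 < p) (hr : 0 < r) (hη : IsPrimitiveRoot η (p * r))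
    (f : ℕ → ℕ → ℂ) :
    ∑ k0 ∈ range (p - 1), ∑ u ∈ range r,
      ‖∑ b ∈ range r, ∑ k ∈ range p, f b k * η ^ ((b + r * k) * (k0 + 1 + p * u))‖ ^ 2 =
      r * ((∑ b ∈ range r, ∑ k ∈ range p, ∑ k' ∈ range p, ‖f b k - f b k'‖ ^ 2) / 2) := by
  have hpr : 0 < p * r := Nat.mul_pos hp hr
  have h1 : IsPrimitiveRoot (η ^ p) r := hη.pow hpr rfl
  have h2 : IsPrimitiveRoot (η ^ r) p := hη.pow hpr (mul_comm _ _)
  have hn : ‖η‖ = 1 := hη.norm'_eq_one hpr.ne'
  have e1 : ∀ t u, ∑ b ∈ range r, ∑ k ∈ range p, f b k * η ^ ((b + r * k) * (t + p * u)) =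
      ∑ b ∈ range r, (η ^ (b * t) * ∑ k ∈ range p, f b k * (η ^ r) ^ (k * t)) * (η ^ p) ^ (b * u) := by
    intro t u
    refine sum_congr rfl fun b _ => ?_
    rw [mul_sum, sum_mul]
    refine sum_congr rfl fun k _ => ?_
    have : (b + r * k) * (t + p * u) = b * t + r * (k * t) + p * (b * u) + (p * r) * (k * u) := by ring
    rw [this, pow_add, pow_add, pow_add, pow_mul η (p * r), hη.pow_eq_one, one_pow, ← pow_mul η r,
      ← pow_mul η p]
    ring
  simp only [e1, parseval _ r hr h1, norm_mul, norm_pow, hn, one_pow, one_mul]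
  rw [← mul_sum, sum_comm, sum_div]
  congr 1
  refine sum_congr rfl fun b _ => ?_
  rw [← variance, ← parseval _ p hp h2]
  obtain ⟨p', rfl⟩ : ∃ p', p = p' + 1 := ⟨p - 1, by omega⟩
  rw [sum_range_succ' (fun u => ‖∑ k ∈ range (p' + 1), f b k * (η ^ r) ^ (k * u)‖ ^ 2)]
  simp

theorem rep {L : Type} [Field L] [Algebra ℚ L] (ζ η ω : L) (p r x y0 : ℕ) (hr : 0 < r) (hp : 0 < p)
    (hζ : ζ = η ^ x * ω ^ y0) (hη : η ^ (p * r) = 1) (hω : IsIntegral ℤ ω)
    (y : L) (hy : y ∈ Algebra.adjoin ℤ {ζ}) :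
    ∃ c : ℕ → ℕ → L, (∀ b k, IsIntegral ℤ (c b k) ∧ ∀ ρ : Gal(L/ℚ), ρ ω = ω → ρ (c b k) = c b k) ∧
      y = ∑ b ∈ range r, ∑ k ∈ range p, c b k * η ^ (b + r * k) := by
  rw [Algebra.adjoin_singleton_eq_range_aeval] at hy
  obtain ⟨P, rfl⟩ := hy
  induction P using Polynomial.induction_on' with
  | add P Q hP hQ =>
    obtain ⟨c, hc, e⟩ := hP
    obtain ⟨c', hc', e'⟩ := hQ
    refine ⟨fun b k => c b k + c' b k, fun b k => ⟨(hc b k).1.add (hc' b k).1, fun ρ hρ => ?_⟩, ?_⟩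
    · rw [map_add, (hc b k).2 ρ hρ, (hc' b k).2 ρ hρ]
    · rw [map_add, e, e']
      simp only [add_mul, sum_add_distrib]
  | monomial i a =>
    set j := (x * i) % (p * r) with hj
    have hjlt : j < p * r := Nat.mod_lt _ (Nat.mul_pos hp hr)
    refine ⟨fun b k => if b = j % r ∧ k = j / r then (a : L) * ω ^ (y0 * i) else 0, ?_, ?_⟩
    · intro b k
      beta_reduce
      split_ifs
      · refine ⟨IsIntegral.mul (isIntegral_algebraMap (R := ℤ) (x := a)) (hω.pow _), fun ρ hρ => ?_⟩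
        rw [map_mul, map_pow, hρ, map_intCast]
      · exact ⟨isIntegral_zero, fun ρ _ => map_zero ρ⟩
    · rw [sum_eq_single (j % r), sum_eq_single (j / r)]
      · simp only [and_self, if_true, Nat.mod_add_div]
        have : η ^ j = η ^ (x * i) := by
          conv_rhs => rw [← Nat.mod_add_div (x * i) (p * r), pow_add, pow_mul η (p * r), hη, one_pow,
            mul_one]
        rw [this]
        simp only [AlgHom.toRingHom_eq_coe, RingHom.coe_coe, Polynomial.aeval_monomial, eq_intCast,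
          hζ, mul_pow, ← pow_mul]
        ring
      · intro k _ hk
        simp [hk]
      · intro h
        exact absurd (mem_range.mpr (Nat.div_lt_of_lt_mul (by rwa [mul_comm] at hjlt))) h
      · intro b _ hb
        simp [hb]
      · intro h
        exact absurd (mem_range.mpr (Nat.mod_lt _ hr)) h

theorem exists_aut {L : Type} [Field L] [NumberField L] (n : ℕ) [NeZero n]
    [IsCyclotomicExtension {n} ℚ L] (τ : ℕ) (h3 : Nat.Coprime τ n) :
    ∃ ρ : Gal(L/ℚ), ∀ z : L, z ^ n = 1 → ρ z = z ^ τ := by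
  refine ⟨(IsCyclotomicExtension.Rat.galEquivZMod n L).symm (ZMod.unitOfCoprime τ h3), ?_⟩
  intro z hz
  rw [IsCyclotomicExtension.Rat.galEquivZMod_apply_of_pow_eq n L _ hz,
    MulEquiv.apply_symm_apply, ZMod.coe_unitOfCoprime, ZMod.val_natCast]
  conv_rhs => rw [← Nat.mod_add_div τ n, pow_add, pow_mul z n, hz, one_pow, mul_one]

theorem exists_rho {L : Type} [Field L] [NumberField L] (n q n' : ℕ) [NeZero n]
    [IsCyclotomicExtension {n} ℚ L] (hn : n = q * n') (hc : Nat.Coprime q n') (η ω : L)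
    (hη : η ^ q = 1) (hω : ω ^ n' = 1) (t : ℕ) (ht : Nat.Coprime t q) :
    ∃ ρ : Gal(L/ℚ), ρ η = η ^ t ∧ ρ ω = ω := by
  obtain ⟨τ, h1, h2⟩ := Nat.chineseRemainder hc t 1
  have h3 : Nat.Coprime τ n := by
    rw [hn]
    refine Nat.Coprime.mul_right ?_ ?_
    · rw [Nat.Coprime, h1.gcd_eq]
      exact ht
    · rw [Nat.Coprime, h2.gcd_eq]
      simp
  obtain ⟨ρ, key⟩ := exists_aut (L := L) n τ h3
  refine ⟨ρ, ?_, ?_⟩
  · rw [key η (by rw [hn, pow_mul, hη, one_pow])]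
    exact pow_eq_pow_of_modEq h1 hη
  · rw [key ω (by rw [hn, mul_comm, pow_mul, hω, one_pow])]
    exact (pow_eq_pow_of_modEq h2 hω).trans (pow_one ω)

theorem sparse {L : Type} [Field L] [NumberField L] [IsGalois ℚ L] (ι : L →+* ℂ) (η ω : L)
    (p r T : ℕ) (hp : p.Prime) (hr : 0 < r) (hη : IsPrimitiveRoot η (p * r))
    (hρ : ∀ t, Nat.Coprime t p → ∃ ρ : Gal(L/ℚ), ρ η = η ^ t ∧ ρ ω = ω)
    (y : L) (c : ℕ → ℕ → L)
    (hc : ∀ b k, IsIntegral ℤ (c b k) ∧ ∀ ρ : Gal(L/ℚ), ρ ω = ω → ρ (c b k) = c b k)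
    (hy : y = ∑ b ∈ range r, ∑ k ∈ range p, c b k * η ^ (b + r * k))
    (hT : ∑ σ : Gal(L/ℚ), ‖ι (σ y)‖ ^ 2 ≤ T * Fintype.card Gal(L/ℚ)) :
    ∃ (s : Finset (ℕ × ℕ)) (c' : ℕ × ℕ → L), s.card ≤ 2 * T ∧
      (∀ x, ∀ ρ : Gal(L/ℚ), ρ ω = ω → ρ (c' x) = c' x) ∧
      y = ∑ x ∈ s, c' x * η ^ (x.1 + r * x.2) := by
  classical
  have hp0 := hp.pos
  have hpr : 0 < p * r := Nat.mul_pos hp0 hr
  have hmin : ∀ b, ∃ k ∈ range p, ∀ k' ∈ range p,
      ((range p).filter (fun l => c b l ≠ c b k)).card ≤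
        ((range p).filter (fun l => c b l ≠ c b k')).card :=
    fun b => exists_min_image (range p) _ ⟨0, mem_range.mpr hp0⟩
  choose ks hks1 hks2 using hmin
  refine ⟨(range r ×ˢ range p).filter (fun x => c x.1 x.2 ≠ c x.1 (ks x.1)),
    fun x => c x.1 x.2 - c x.1 (ks x.1), ?_, ?_, ?_⟩
  · set G : ℝ := ((Fintype.card Gal(L/ℚ) : ℕ) : ℝ) with hG
    have hG0 : 0 < G := by
      rw [hG]
      exact_mod_cast Fintype.card_pos
    have h1 : ∀ t, Nat.Coprime t p → ∑ σ : Gal(L/ℚ),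
        ‖∑ b ∈ range r, ∑ k ∈ range p, ι (σ (c b k)) * ι (σ η) ^ ((b + r * k) * t)‖ ^ 2 ≤ T * G := by
      intro t ht
      obtain ⟨ρ, hρ1, hρ2⟩ := hρ t ht
      refine le_trans (le_of_eq ?_) hT
      rw [← Equiv.sum_comp (Equiv.mulRight ρ) (fun σ : Gal(L/ℚ) => ‖ι (σ y)‖ ^ 2)]
      refine sum_congr rfl fun σ _ => ?_
      congr 2
      simp only [Equiv.coe_mulRight, AlgEquiv.mul_apply, hy, map_sum, map_mul, map_pow, hρ1,
        (hc _ _).2 ρ hρ2, ← pow_mul, mul_comm t]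
    have h2 : ∑ k0 ∈ range (p - 1), ∑ u ∈ range r, ∑ σ : Gal(L/ℚ),
        ‖∑ b ∈ range r, ∑ k ∈ range p,
          ι (σ (c b k)) * ι (σ η) ^ ((b + r * k) * (k0 + 1 + p * u))‖ ^ 2 ≤ p * (r * (T * G)) := by
      have h3 : ∀ k0 ∈ range (p - 1), ∑ u ∈ range r, ∑ σ : Gal(L/ℚ),
          ‖∑ b ∈ range r, ∑ k ∈ range p,
            ι (σ (c b k)) * ι (σ η) ^ ((b + r * k) * (k0 + 1 + p * u))‖ ^ 2 ≤ r * (T * G) := by
        intro k0 hk0
        refine (sum_le_sum fun u _ => h1 (k0 + 1 + p * u) ?_).trans (by simp)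
        rw [Nat.coprime_add_mul_left_left]
        rw [mem_range] at hk0
        exact (Nat.coprime_of_lt_prime (by omega) (by omega) hp).symm
      refine (sum_le_sum h3).trans ?_
      rw [sum_const, card_range, nsmul_eq_mul]
      refine mul_le_mul_of_nonneg_right ?_ (by positivity)
      exact_mod_cast Nat.sub_le p 1
    have h4 : ∑ k0 ∈ range (p - 1), ∑ u ∈ range r, ∑ σ : Gal(L/ℚ),
        ‖∑ b ∈ range r, ∑ k ∈ range p,
          ι (σ (c b k)) * ι (σ η) ^ ((b + r * k) * (k0 + 1 + p * u))‖ ^ 2 =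
        r * ((∑ b ∈ range r, ∑ k' ∈ range p, ∑ k ∈ range p,
          ∑ σ : Gal(L/ℚ), ‖ι (σ (c b k - c b k'))‖ ^ 2) / 2) := by
      have h5 : ∀ σ : Gal(L/ℚ), IsPrimitiveRoot (ι (σ η)) (p * r) := fun σ =>
        (hη.map_of_injective σ.injective).map_of_injective ι.injective
      calc _ = ∑ σ : Gal(L/ℚ), ∑ k0 ∈ range (p - 1), ∑ u ∈ range r,
            ‖∑ b ∈ range r, ∑ k ∈ range p,
              ι (σ (c b k)) * ι (σ η) ^ ((b + r * k) * (k0 + 1 + p * u))‖ ^ 2 := by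
            rw [sum_comm (s := univ)]
            exact sum_congr rfl fun k0 _ => sum_comm
        _ = ∑ σ : Gal(L/ℚ), r * ((∑ b ∈ range r, ∑ k ∈ range p, ∑ k' ∈ range p,
              ‖ι (σ (c b k)) - ι (σ (c b k'))‖ ^ 2) / 2) :=
            sum_congr rfl fun σ _ => two_level _ p r hp0 hr (h5 σ) _
        _ = _ := by
            rw [← mul_sum, ← sum_div, sum_comm]
            congr 2
            refine sum_congr rfl fun b _ => ?_
            rw [sum_comm, sum_comm (s := range p) (t := range p)]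
            refine sum_congr rfl fun k _ => ?_
            rw [sum_comm]
            simp only [map_sub]
    have h6 : ∀ b, (p : ℝ) * (((range p).filter (fun l => c b l ≠ c b (ks b))).card * G) ≤
        ∑ k' ∈ range p, ∑ k ∈ range p, ∑ σ : Gal(L/ℚ), ‖ι (σ (c b k - c b k'))‖ ^ 2 := by
      intro b
      have h7 : ∀ k' ∈ range p, (((range p).filter (fun l => c b l ≠ c b (ks b))).card * G : ℝ) ≤
          ∑ k ∈ range p, ∑ σ : Gal(L/ℚ), ‖ι (σ (c b k - c b k'))‖ ^ 2 := by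
        intro k' hk'
        have h8 : (((range p).filter (fun l => c b l ≠ c b (ks b))).card : ℝ) ≤
            ((range p).filter (fun l => c b l ≠ c b k')).card := by exact_mod_cast hks2 b k' hk'
        refine (mul_le_mul_of_nonneg_right h8 hG0.le).trans ?_
        rw [← nsmul_eq_mul, ← sum_const]
        refine le_trans (sum_le_sum fun k hk => ?_) (sum_le_sum_of_subset_of_nonneg
          (filter_subset (fun l => c b l ≠ c b k') (range p)) (fun _ _ _ => by positivity))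
        exact mean_ge ι _ ((hc b k).1.sub (hc b k').1) (sub_ne_zero.mpr (mem_filter.mp hk).2)
      refine le_trans (le_of_eq ?_) (sum_le_sum h7)
      rw [sum_const, card_range, nsmul_eq_mul]
    have h9 : (((range r ×ˢ range p).filter (fun x => c x.1 x.2 ≠ c x.1 (ks x.1))).card : ℝ) =
        ∑ b ∈ range r, (((range p).filter (fun l => c b l ≠ c b (ks b))).card : ℝ) := by
      rw [card_filter, sum_product]
      push_cast
      refine sum_congr rfl fun b _ => ?_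
      rw [card_filter]
      push_cast
      rfl
    have h10 := sum_le_sum (s := range r) fun b _ => h6 b
    rw [← mul_sum, ← sum_mul, ← h9] at h10
    rw [h4] at h2
    have hr' : (0 : ℝ) < r := by exact_mod_cast hr
    have hp' : (0 : ℝ) < p := by exact_mod_cast hp0
    have h11 : (((range r ×ˢ range p).filter (fun x => c x.1 x.2 ≠ c x.1 (ks x.1))).card : ℝ) ≤
        2 * T := by
      set X : ℝ := ((((range r ×ˢ range p).filter (fun x => c x.1 x.2 ≠ c x.1 (ks x.1))).card : ℕ) : ℝ)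
      have h12 : (r * p * G) * X ≤ (r * p * G) * (2 * T) := by nlinarith
      exact le_of_mul_le_mul_left h12 (by positivity)
    exact_mod_cast h11
  · intro x ρ hρ
    rw [map_sub, (hc _ _).2 ρ hρ, (hc _ _).2 ρ hρ]
  · beta_reduce
    rw [sum_filter_of_ne (p := fun x : ℕ × ℕ => c x.1 x.2 ≠ c x.1 (ks x.1))
      (fun x _ h h' => h (by rw [h', sub_self, zero_mul])), sum_product, hy]
    refine sum_congr rfl fun b _ => ?_
    have h2 : IsPrimitiveRoot (η ^ r) p := hη.pow hpr (mul_comm _ _)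
    have h3 := h2.geom_sum_eq_zero hp.one_lt
    simp only [sub_mul, sum_sub_distrib, pow_add, pow_mul, ← mul_assoc, ← mul_sum, h3, mul_zero,
      sub_zero]

end Pool.Agent.H618Z.PySparse
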