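import Mathlib
import Pool.Agent.H618Z.PyFree
import Pool.Agent.H618Z.PySparse

set_option autoImplicit false

/-!
# Sums of squares in rings of integers of infinite real cyclotomic fields
-/

namespace Pool.Agent.H618Z.PyMain

open Finset

theorem digits_zero (B : ℤ) (hB : 0 < B) : ∀ (M : ℕ) (l : Fin M → ℤ), (∀ i, |l i| < B) →
    ∑ i, l i * B ^ (i : ℕ) = 0 → l = 0 := by
  intro M
  induction M with
  | zero => intro l _ _; exact Subsingleton.elim _ _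
  | succ M ih =>
    intro l hl hs
    rw [Fin.sum_univ_succ] at hs
    have e : ∑ i : Fin M, l i.succ * B ^ ((i.succ : Fin (M + 1)) : ℕ) =
        B * ∑ i : Fin M, l i.succ * B ^ (i : ℕ) := by
      rw [mul_sum]
      exact sum_congr rfl fun i _ => by rw [Fin.val_succ, pow_succ]; ring
    rw [e] at hs
    simp only [Fin.val_zero, pow_zero, mul_one] at hs
    have h0 : l 0 = 0 :=
      Int.eq_zero_of_abs_lt_dvd (m := B) ⟨-∑ i : Fin M, l i.succ * B ^ (i : ℕ), by linarith⟩ (hl 0)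
    rw [h0, zero_add, mul_eq_zero] at hs
    have h1 := ih (fun i => l i.succ) (fun i => hl _) (hs.resolve_left hB.ne')
    funext i
    refine Fin.cases h0 (fun j => congrFun h1 j) i

theorem exists_pp (S : Set ℕ) (hS : S.Infinite) (A W : ℕ) :
    ∃ n ∈ S, ∃ p e d : ℕ, p.Prime ∧ p ^ (e + 1) ∣ n ∧ 2 * d * W < p ^ (e + 1) ∧ 0 < d ∧
      ∀ u < A, Nat.Coprime (1 + d * u) p := by
  by_contra h
  push Not at h
  apply hS
  refine (Set.finite_Iic ((2 * (2 * W + A + 1) * W + 1).factorial)).subset fun n hn => ?_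
  refine Nat.le_of_dvd (Nat.factorial_pos _) ?_
  rw [Nat.dvd_iff_prime_pow_dvd_dvd]
  intro p k hp hk
  rcases k with _ | e
  · simp
  · refine Nat.dvd_factorial (pow_pos hp.pos _) ?_
    have h1 : p ≤ 2 * W + A + 1 := by
      by_contra h1
      push Not at h1
      obtain ⟨u, hu, h2⟩ := h n hn p 0 1 hp (dvd_trans (pow_dvd_pow p (by omega)) hk)
        (by simp; omega) one_pos
      exact h2 (Nat.coprime_of_lt_prime (by omega) (by omega) hp).symm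
    by_contra h2
    push Not at h2
    have h3 : 2 * p * W ≤ 2 * (2 * W + A + 1) * W := by gcongr
    obtain ⟨u, _, h4⟩ := h n hn p e p hp hk (by omega) hp.pos
    apply h4
    show Nat.Coprime (1 + p * u) p
    rw [Nat.coprime_add_mul_left_left]
    simp

theorem exists_common (S : Set ℕ) (hdir : ∀ a ∈ S, ∀ b ∈ S, ∃ c ∈ S, a ∣ c ∧ b ∣ c)
    (n0 : ℕ) (h0 : n0 ∈ S) {κ : Type} (s : Finset κ) (f : κ → ℕ) (hf : ∀ j, f j ∈ S) :
    ∃ n ∈ S, n0 ∣ n ∧ ∀ j ∈ s, f j ∣ n := by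
  classical
  induction s using Finset.induction_on with
  | empty => exact ⟨n0, h0, dvd_rfl, by simp⟩
  | insert j s _ ih =>
    obtain ⟨n, hn, h1, h2⟩ := ih
    obtain ⟨c, hc, h3, h4⟩ := hdir n hn (f j) (hf j)
    refine ⟨c, hc, h1.trans h3, fun i hi => ?_⟩
    rcases mem_insert.mp hi with rfl | hi
    · exact h4
    · exact (h2 i hi).trans h3

theorem cheb_mem (K : IntermediateField ℚ ℂ) (ζ : ℂ) (h0 : ζ ≠ 0) (h : ζ + ζ⁻¹ ∈ K) (k : ℕ) :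
    ζ ^ k + (ζ ^ k)⁻¹ ∈ K := by
  induction k using Nat.twoStepInduction with
  | zero => simpa using K.add_mem K.one_mem K.one_mem
  | one => simpa using h
  | more k h1 h2 =>
    have : ζ ^ (k + 2) + (ζ ^ (k + 2))⁻¹ =
        (ζ + ζ⁻¹) * (ζ ^ (k + 1) + (ζ ^ (k + 1))⁻¹) - (ζ ^ k + (ζ ^ k)⁻¹) := by
      field_simp
      ring
    rw [this]
    exact K.sub_mem (K.mul_mem h h2) h1

theorem mem_real (S : Set ℕ) (hpos : ∀ n ∈ S, 0 < n) (x : ℂ)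
    (hx : x ∈ IntermediateField.adjoin ℚ
      {z : ℂ | ∃ n ∈ S, ∃ ζ : ℂ, IsPrimitiveRoot ζ n ∧ z = ζ + ζ⁻¹}) :
    (starRingEnd ℂ) x = x := by
  induction hx using IntermediateField.adjoin_induction with
  | mem x hx =>
    obtain ⟨n, hn, ζ, hζ, rfl⟩ := hx
    have h1 : ‖ζ‖ = 1 := hζ.norm'_eq_one (hpos n hn).ne'
    rw [map_add, map_inv₀, ← Complex.inv_eq_conj h1, inv_inv, add_comm]
  | algebraMap q => simp
  | add x y _ _ hx hy => rw [map_add, hx, hy]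
  | inv x _ hx => rw [map_inv₀, hx]
  | mul x y _ _ hx hy => rw [map_mul, hx, hy]

theorem mem_level (S : Set ℕ) (hdir : ∀ a ∈ S, ∀ b ∈ S, ∃ c ∈ S, a ∣ c ∧ b ∣ c)
    (n0 : ℕ) (h0 : n0 ∈ S) (x : ℂ)
    (hx : x ∈ IntermediateField.adjoin ℚ
      {z : ℂ | ∃ n ∈ S, ∃ ζ : ℂ, IsPrimitiveRoot ζ n ∧ z = ζ + ζ⁻¹}) :
    ∃ n ∈ S, ∀ F : IntermediateField ℚ ℂ, (∀ μ : ℂ, μ ^ n = 1 → μ ∈ F) → x ∈ F := by
  have mono : ∀ a c : ℕ, a ∣ c → ∀ F : IntermediateField ℚ ℂ, (∀ μ : ℂ, μ ^ c = 1 → μ ∈ F) →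
      ∀ μ : ℂ, μ ^ a = 1 → μ ∈ F := by
    rintro a _ ⟨k, rfl⟩ F hF μ hμ
    exact hF μ (by rw [pow_mul, hμ, one_pow])
  induction hx using IntermediateField.adjoin_induction with
  | mem x hx =>
    obtain ⟨n, hn, ζ, hζ, rfl⟩ := hx
    exact ⟨n, hn, fun F hF => F.add_mem (hF ζ hζ.pow_eq_one) (F.inv_mem (hF ζ hζ.pow_eq_one))⟩
  | algebraMap q => exact ⟨n0, h0, fun F _ => F.algebraMap_mem q⟩
  | add x y _ _ hx hy =>
    obtain ⟨a, ha, hx⟩ := hx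
    obtain ⟨b, hb, hy⟩ := hy
    obtain ⟨c, hc, h1, h2⟩ := hdir a ha b hb
    exact ⟨c, hc, fun F hF => F.add_mem (hx F (mono a c h1 F hF)) (hy F (mono b c h2 F hF))⟩
  | inv x _ hx =>
    obtain ⟨a, ha, hx⟩ := hx
    exact ⟨a, ha, fun F hF => F.inv_mem (hx F hF)⟩
  | mul x y _ _ hx hy =>
    obtain ⟨a, ha, hx⟩ := hx
    obtain ⟨b, hb, hy⟩ := hy
    obtain ⟨c, hc, h1, h2⟩ := hdir a ha b hb
    exact ⟨c, hc, fun F hF => F.mul_mem (hx F (mono a c h1 F hF)) (hy F (mono b c h2 F hF))⟩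

theorem conj_eq {L : Type} [Field L] (ζ : L) (n : ℕ) (hn : n ≠ 0) (hζ : ζ ^ n = 1) (τ : L →+* L)
    (hτ : τ ζ = ζ⁻¹) (φ : L →+* ℂ) (y : L) (hy : y ∈ Algebra.adjoin ℤ {ζ}) :
    (starRingEnd ℂ) (φ y) = φ (τ y) := by
  induction hy using Algebra.adjoin_induction with
  | mem x hx =>
    rw [Set.mem_singleton_iff.mp hx, hτ, map_inv₀, Complex.inv_eq_conj]
    exact Complex.norm_eq_one_of_pow_eq_one (by rw [← map_pow, hζ, map_one]) hn
  | algebraMap k => simp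
  | add x y _ _ hx hy => simp only [map_add, hx, hy]
  | mul x y _ _ hx hy => simp only [map_mul, hx, hy]

theorem sq_bound {m M : ℕ} (a : Fin m → ℂ) (μ : Fin M → ℂ) (ha : ∀ j, (starRingEnd ℂ) (a j) = a j)
    (hμ : ∀ i, ‖μ i‖ = 1) (h : ∑ j, a j ^ 2 = ∑ i, (μ i + (μ i)⁻¹) ^ 2) (j : Fin m) :
    ‖a j‖ ^ 2 ≤ (4 * M : ℕ) := by
  have h1 : ((∑ j, ‖a j‖ ^ 2 : ℝ) : ℂ) = ∑ j, a j ^ 2 := by
    push_cast
    exact sum_congr rfl fun j _ => by rw [← Complex.mul_conj', ha, sq]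
  have h2 : ‖∑ i, (μ i + (μ i)⁻¹) ^ 2‖ ≤ ∑ _i : Fin M, (4 : ℝ) := by
    refine (norm_sum_le _ _).trans (sum_le_sum fun i _ => ?_)
    have h3 : ‖μ i + (μ i)⁻¹‖ ≤ 2 := by
      refine (norm_add_le _ _).trans ?_
      rw [norm_inv, hμ]
      norm_num
    rw [norm_pow]
    nlinarith [norm_nonneg (μ i + (μ i)⁻¹)]
  rw [← h, ← h1, Complex.norm_real, Real.norm_of_nonneg (sum_nonneg fun _ _ => by positivity)] at h2
  have h4 : ‖a j‖ ^ 2 ≤ ∑ j, ‖a j‖ ^ 2 :=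
    single_le_sum (f := fun j => ‖a j‖ ^ 2) (fun _ _ => by positivity) (mem_univ j)
  simp only [sum_const, card_univ, Fintype.card_fin, nsmul_eq_mul] at h2
  push_cast
  linarith

set_option maxHeartbeats 800000 in
theorem main (S : Set ℕ) (hS : S.Infinite) (hpos : ∀ n ∈ S, 0 < n)
    (hdir : ∀ a ∈ S, ∀ b ∈ S, ∃ c ∈ S, a ∣ c ∧ b ∣ c) (K : IntermediateField ℚ ℂ)
    (hK : K = IntermediateField.adjoin ℚ
      {z : ℂ | ∃ n ∈ S, ∃ ζ : ℂ, IsPrimitiveRoot ζ n ∧ z = ζ + ζ⁻¹}) (m : ℕ) :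
    ∃ f : Fin (m + 1) → ℂ, (∀ i, f i ∈ K ∧ IsIntegral ℤ (f i)) ∧
      ∀ g : Fin m → ℂ, (∀ i, g i ∈ K ∧ IsIntegral ℤ (g i)) → ∑ i, f i ^ 2 ≠ ∑ i, g i ^ 2 := by
  obtain ⟨C, A, hkey⟩ := PyFree.key m (2 * (4 * (m + 1)))
  obtain ⟨n0, hn0, p, e0, d, hp, hdvd, hW, hd, hcop⟩ :=
    exists_pp S hS A (∑ i : Fin (m + 1), C * (C + 1) ^ (i : ℕ))
  have hq0 : p ^ (e0 + 1) ≠ 0 := pow_ne_zero _ hp.ne_zero
  have hη0 := Complex.isPrimitiveRoot_exp (p ^ (e0 + 1)) hq0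
  set η0 := Complex.exp (2 * Real.pi * Complex.I / (p ^ (e0 + 1) : ℕ)) with hη0def
  clear_value η0
  have hη0n : ‖η0‖ = 1 := hη0.norm'_eq_one hq0
  have hη00 : η0 ≠ 0 := hη0.ne_zero hq0
  refine ⟨fun i => η0 ^ (C + 1) ^ (i : ℕ) + (η0 ^ (C + 1) ^ (i : ℕ))⁻¹, fun i => ⟨?_, ?_⟩, ?_⟩
  · have h1 := Complex.isPrimitiveRoot_exp n0 (hpos n0 hn0).ne'
    have : NeZero n0 := ⟨(hpos n0 hn0).ne'⟩
    obtain ⟨k, _, hk⟩ := h1.eq_pow_of_pow_eq_one (ξ := η0) (by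
      obtain ⟨c, rfl⟩ := hdvd
      rw [pow_mul, hη0.pow_eq_one, one_pow])
    beta_reduce
    rw [← hk, ← pow_mul]
    refine cheb_mem K _ (h1.ne_zero (hpos n0 hn0).ne') ?_ _
    rw [hK]
    exact IntermediateField.subset_adjoin _ _ ⟨n0, hn0, _, h1, rfl⟩
  · refine IsIntegral.add ((hη0.isIntegral (Nat.pos_of_ne_zero hq0)).pow _) ?_
    rw [← inv_pow]
    exact (hη0.inv.isIntegral (Nat.pos_of_ne_zero hq0)).pow _
  intro g hg hsum
  have hlev := fun j => mem_level S hdir n0 hn0 (g j) (hK ▸ (hg j).1)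
  choose nj hnj1 hnj2 using hlev
  obtain ⟨n, hn, hn0n, hnj3⟩ := exists_common S hdir n0 hn0 univ nj hnj1
  have hnpos := hpos n hn
  have : NeZero n := ⟨hnpos.ne'⟩
  obtain ⟨e, n', hn', hnfac⟩ := Nat.exists_eq_pow_mul_and_not_dvd hnpos.ne' p hp.one_lt.ne'
  have hcop' : Nat.Coprime (p ^ e) n' := Nat.Coprime.pow_left _ ((Nat.Prime.coprime_iff_not_dvd hp).mpr hn')
  have he : p ^ (e0 + 1) ∣ p ^ e := by
    refine Nat.Coprime.dvd_of_dvd_mul_right (k := p ^ (e0 + 1)) (n := n')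
      (Nat.Coprime.pow_left _ ((Nat.Prime.coprime_iff_not_dvd hp).mpr hn')) ?_
    rw [← hnfac]
    exact hdvd.trans hn0n
  have he' : e0 + 1 ≤ e := (Nat.pow_dvd_pow_iff_le_right hp.one_lt).mp he
  obtain ⟨r, hr⟩ : ∃ r, p ^ e = p * r := ⟨p ^ (e - 1), by
    rw [← pow_succ']
    congr 1
    omega⟩
  have hr0 : 0 < r := by
    rcases Nat.eq_zero_or_pos r with h | h
    · rw [h, mul_zero] at hr
      exact absurd hr (pow_ne_zero _ hp.ne_zero)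
    · exact h
  have hn'0 : 0 < n' := Nat.pos_of_ne_zero (by rintro rfl; exact hn' (dvd_zero p))
  obtain ⟨L, _, _, _⟩ : ∃ (L : Type) (_ : Field L) (_ : NumberField L),
      IsCyclotomicExtension {n} ℚ L :=
    ⟨CyclotomicField n ℚ, inferInstance, inferInstance, CyclotomicField.isCyclotomicExtension n ℚ⟩
  have : IsGalois ℚ L := IsCyclotomicExtension.isGalois {n} ℚ L
  let ι : L →ₐ[ℚ] ℂ := IsAlgClosed.lift
  have hζ := IsCyclotomicExtension.zeta_spec n ℚ L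
  set ζ := IsCyclotomicExtension.zeta n ℚ L with hζdef
  clear_value ζ
  have hιinj : Function.Injective ι := ι.toRingHom.injective
  have hrange : ∀ μ : ℂ, μ ^ n = 1 → μ ∈ ι.fieldRange := by
    intro μ hμ
    obtain ⟨k, _, hk⟩ := (hζ.map_of_injective hιinj).eq_pow_of_pow_eq_one hμ
    exact ⟨ζ ^ k, by rw [← hk]; simp⟩
  have hgr : ∀ j, ∃ y, ι y = g j := by
    intro j
    refine hnj2 j ι.fieldRange fun μ hμ => hrange μ ?_
    obtain ⟨k, rfl⟩ := hnj3 j (mem_univ j)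
    rw [pow_mul, hμ, one_pow]
  choose y hy using hgr
  have hyint : ∀ j, IsIntegral ℤ (y j) := fun j =>
    (isIntegral_algHom_iff (ι.restrictScalars ℤ) hιinj).mp (by simpa [hy] using (hg j).2)
  have hyadj : ∀ j, y j ∈ Algebra.adjoin ℤ {ζ} := by
    intro j
    obtain ⟨a, ha⟩ := (IsCyclotomicExtension.Rat.isIntegralClosure_adjoin_singleton hζ).isIntegral_iff.mp
      (hyint j)
    rw [← ha]
    exact a.2
  obtain ⟨η, hηdef⟩ : ∃ η, η = ζ ^ n' := ⟨_, rfl⟩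
  obtain ⟨ω, hωdef⟩ : ∃ ω, ω = ζ ^ (p ^ e) := ⟨_, rfl⟩
  have hη : IsPrimitiveRoot η (p ^ e) := hηdef ▸ hζ.pow hnpos (by rw [hnfac, mul_comm])
  have hω : IsPrimitiveRoot ω n' := hωdef ▸ hζ.pow hnpos hnfac
  have hζe : ζ = η ^ (n' ^ (Nat.totient (p ^ e) - 1)) * ω ^ ((p ^ e) ^ (Nat.totient n' - 1)) := by
    have h1 : 0 < Nat.totient (p ^ e) := Nat.totient_pos.mpr (pow_pos hp.pos _)
    have h2 : 0 < Nat.totient n' := Nat.totient_pos.mpr hn'0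
    rw [hηdef, hωdef, ← pow_mul, ← pow_mul, ← pow_add, ← pow_succ', ← pow_succ',
      Nat.sub_add_cancel h1, Nat.sub_add_cancel h2]
    conv_lhs => rw [← pow_one ζ]
    refine pow_eq_pow_of_modEq (n := n) ?_ hζ.pow_eq_one
    rw [hnfac, ← Nat.modEq_and_modEq_iff_modEq_mul hcop']
    constructor
    · have h3 := (Nat.ModEq.pow_totient hcop'.symm).symm
      have h4 : 0 ≡ (p ^ e) ^ Nat.totient n' [MOD p ^ e] :=
        (Nat.modEq_zero_iff_dvd.mpr (dvd_pow_self _ h2.ne')).symm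
      simpa using h3.add h4
    · have h3 := (Nat.ModEq.pow_totient hcop').symm
      have h4 : 0 ≡ n' ^ Nat.totient (p ^ e) [MOD n'] :=
        (Nat.modEq_zero_iff_dvd.mpr (dvd_pow_self _ h1.ne')).symm
      simpa using h4.add h3
  have hρ : ∀ t, Nat.Coprime t p → ∃ ρ : Gal(L/ℚ), ρ η = η ^ t ∧ ρ ω = ω := fun t ht =>
    PySparse.exists_rho n (p ^ e) n' hnfac hcop' η ω hη.pow_eq_one hω.pow_eq_one t (ht.pow_right e)
  -- the root of unity `η0` comes from `L`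
  have : NeZero (p ^ e) := ⟨pow_ne_zero _ hp.ne_zero⟩
  obtain ⟨h, _, hh⟩ := (hη.map_of_injective hιinj).eq_pow_of_pow_eq_one (ξ := η0) (by
    obtain ⟨c, hc⟩ := he
    rw [hc, pow_mul, hη0.pow_eq_one, one_pow])
  have hsumL : ∑ j, y j ^ 2 =
      ∑ i : Fin (m + 1), ((η ^ h) ^ (C + 1) ^ (i : ℕ) + ((η ^ h) ^ (C + 1) ^ (i : ℕ))⁻¹) ^ 2 := by
    apply hιinj
    simp only [map_sum, map_pow, map_add, map_inv₀, hy, hh]
    exact hsum.symm
  -- reality of all conjugates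
  obtain ⟨τ, hτ⟩ := PySparse.exists_aut (L := L) n (n - 1) (by
    obtain ⟨k, rfl⟩ : ∃ k, n = k + 1 := ⟨n - 1, by omega⟩
    simp)
  have hτζ : τ ζ = ζ⁻¹ := by
    rw [hτ ζ hζ.pow_eq_one]
    refine eq_inv_of_mul_eq_one_left ?_
    rw [← pow_succ, Nat.sub_add_cancel hnpos, hζ.pow_eq_one]
  have hτy : ∀ j, τ (y j) = y j := by
    intro j
    apply hιinj
    have h1 := conj_eq ζ n hnpos.ne' hζ.pow_eq_one (τ : L →+* L) hτζ (ι : L →+* ℂ) (y j) (hyadj j)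
    have h2 := mem_real S hpos (g j) (hK ▸ (hg j).1)
    simp only [RingHom.coe_coe, hy] at h1
    rw [← h1, h2, hy]
  have hreal : ∀ (σ : Gal(L/ℚ)) j, (starRingEnd ℂ) (ι (σ (y j))) = ι (σ (y j)) := by
    intro σ j
    have h1 := conj_eq ζ n hnpos.ne' hζ.pow_eq_one (τ : L →+* L) hτζ
      ((ι : L →+* ℂ).comp (σ : L →+* L)) (y j) (hyadj j)
    simpa [hτy] using h1
  have hsumσ : ∀ σ : Gal(L/ℚ), ∑ j, ι (σ (y j)) ^ 2 = ∑ i : Fin (m + 1),
      ((ι (σ η) ^ h) ^ (C + 1) ^ (i : ℕ) + ((ι (σ η) ^ h) ^ (C + 1) ^ (i : ℕ))⁻¹) ^ 2 := by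
    intro σ
    have := congrArg (fun x => ι (σ x)) hsumL
    simpa only [map_sum, map_pow, map_add, map_inv₀] using this
  have hnorm : ∀ σ : Gal(L/ℚ), ‖ι (σ η)‖ = 1 := fun σ =>
    ((hη.map_of_injective σ.injective).map_of_injective hιinj).norm'_eq_one (NeZero.ne _)
  have hsp : ∀ j, ∃ (s : Finset (ℕ × ℕ)) (c' : ℕ × ℕ → L), s.card ≤ 2 * (4 * (m + 1)) ∧
      (∀ x, ∀ ρ : Gal(L/ℚ), ρ ω = ω → ρ (c' x) = c' x) ∧
      y j = ∑ x ∈ s, c' x * η ^ (x.1 + r * x.2) := by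
    intro j
    obtain ⟨c, hc1, hc2⟩ := PySparse.rep ζ η ω p r _ _ hr0 hp.pos hζe (by rw [← hr, hη.pow_eq_one])
      (hω.isIntegral hn'0) (y j) (hyadj j)
    refine PySparse.sparse (ι : L →+* ℂ) η ω p r (4 * (m + 1)) hp hr0 (hr ▸ hη) hρ (y j) c hc1 hc2 ?_
    have hb : ∀ σ : Gal(L/ℚ), ‖ι (σ (y j))‖ ^ 2 ≤ ((4 * (m + 1) : ℕ) : ℝ) := fun σ =>
      sq_bound (fun j => ι (σ (y j))) (fun i : Fin (m + 1) => (ι (σ η) ^ h) ^ (C + 1) ^ (i : ℕ))
        (hreal σ) (fun i => by rw [norm_pow, norm_pow, hnorm σ, one_pow, one_pow]) (hsumσ σ) j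
    simp only [RingHom.coe_coe]
    refine (sum_le_sum fun σ _ => hb σ).trans ?_
    rw [sum_const, card_univ, nsmul_eq_mul, mul_comm]
  choose s c' hs1 hs2 hs3 using hsp
  have hιη : ‖ι η‖ = 1 := by simpa using hnorm 1
  have hval : ∀ u < A, ∃ ρ : Gal(L/ℚ), ρ η = η ^ (1 + d * u) ∧ ∀ j,
      ∑ x ∈ s j, ι (c' j x) * ι η ^ (x.1 + r * x.2) * (ι η ^ (d * (x.1 + r * x.2))) ^ u =
        ι (ρ (y j)) := by
    intro u hu
    obtain ⟨ρ, hρ1, hρ2⟩ := hρ _ (hcop u hu)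
    refine ⟨ρ, hρ1, fun j => ?_⟩
    rw [hs3 j]
    simp only [map_sum, map_mul, map_pow, hρ1, hs2 j _ ρ hρ2]
    refine sum_congr rfl fun x _ => ?_
    rw [mul_assoc, ← pow_mul, ← pow_mul, ← pow_add]
    congr 2
    ring
  refine hkey (ℕ × ℕ) s (fun j x => ι (c' j x) * ι η ^ (x.1 + r * x.2))
    (fun x => ι η ^ (d * (x.1 + r * x.2))) (fun i => η0 ^ (C + 1) ^ (i : ℕ))
    (fun i => η0 ^ (d * (C + 1) ^ (i : ℕ))) hs1 (fun x => by simp [hιη]) (fun i => by simp [hη0n])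
    (fun i => by simp [hη0n]) ?_ ?_ ?_
  · intro l hl hprod
    have h1 : ∏ i : Fin (m + 1), ((η0 ^ (d * (C + 1) ^ (i : ℕ))) ^ 2) ^ l i =
        η0 ^ (2 * (d : ℤ) * ∑ i : Fin (m + 1), l i * ((C : ℤ) + 1) ^ (i : ℕ)) := by
      rw [mul_sum]
      have : ∀ t : Finset (Fin (m + 1)), ∏ i ∈ t, ((η0 ^ (d * (C + 1) ^ (i : ℕ))) ^ 2) ^ l i =
          η0 ^ (∑ i ∈ t, 2 * (d : ℤ) * (l i * ((C : ℤ) + 1) ^ (i : ℕ))) := by
        intro t
        induction t using Finset.induction_on with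
        | empty => simp
        | insert i t hi ih =>
          rw [prod_insert hi, sum_insert hi, zpow_add₀ hη00, ih, ← pow_mul, ← zpow_natCast,
            ← zpow_mul]
          congr 2
          push_cast
          ring
      exact this univ
    rw [h1, hη0.zpow_eq_one_iff_dvd] at hprod
    have h2 : |∑ i : Fin (m + 1), l i * ((C : ℤ) + 1) ^ (i : ℕ)| ≤
        ((∑ i : Fin (m + 1), C * (C + 1) ^ (i : ℕ) : ℕ) : ℤ) := by
      refine (abs_sum_le_sum_abs _ _).trans ?_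
      push_cast
      refine sum_le_sum fun i _ => ?_
      rw [abs_mul, abs_of_nonneg (a := ((C : ℤ) + 1) ^ (i : ℕ)) (by positivity)]
      exact mul_le_mul_of_nonneg_right (hl i) (by positivity)
    have h3 := Int.eq_zero_of_abs_lt_dvd hprod (by
      rw [abs_mul, abs_of_nonneg (a := 2 * (d : ℤ)) (by positivity)]
      refine lt_of_le_of_lt (mul_le_mul_of_nonneg_left h2 (by positivity)) ?_
      exact_mod_cast hW)
    rw [mul_eq_zero] at h3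
    refine digits_zero ((C : ℤ) + 1) (by positivity) _ l (fun i => by linarith [hl i])
      (h3.resolve_left (by positivity))
  · intro u hu j
    obtain ⟨ρ, _, hρ2⟩ := hval u hu
    rw [hρ2 j]
    exact hreal ρ j
  · intro u hu
    obtain ⟨ρ, hρ1, hρ2⟩ := hval u hu
    simp only [hρ2]
    rw [hsumσ ρ]
    refine sum_congr rfl fun i _ => ?_
    have : (ι (ρ η) ^ h) ^ (C + 1) ^ (i : ℕ) =
        η0 ^ (C + 1) ^ (i : ℕ) * (η0 ^ (d * (C + 1) ^ (i : ℕ))) ^ u := by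
      rw [hρ1, map_pow, ← hh]
      simp only [← pow_mul, ← pow_add]
      congr 1
      ring
    rw [this]

end Pool.Agent.H618Z.PyMain
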